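import Mathlib.Algebra.Polynomial.Roots
import Mathlib.Topology.Sheaves.Presheaf
import Mathlib.Tactic.Monotonicity.Lemmas
import Mathlib.Algebra.Order.Ring.Star
import Mathlib.Algebra.Order.Star.Real
import Mathlib.Analysis.CStarAlgebra.Classes
import Mathlib.Analysis.Complex.ExponentialBounds
import Mathlib.Combinatorics.SimpleGraph.Coloring.Vertex
import Mathlib.RingTheory.SimpleRing.Principal
import Mathlib.Tactic.Polynomial.Basic

-- ======== part 0: formerly Pool.Agent.MP_cb5fda_co.h21.Deg1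
section MrgPart0

/-! Broken circuits: the chromatic polynomial as a sum over forests. -/

set_option autoImplicit false

namespace Pool.Agent.MP_cb5fda_co.Deg

open Finset Classical

variable {V : Type}

/-- `u` and `v` are joined by the arcs of `F` -/
def Con (F : Finset (V × V)) (u v : V) : Prop :=
  ∀ σ : V → Prop, (∀ e ∈ F, (σ e.1 ↔ σ e.2)) → (σ u ↔ σ v)

theorem Con.mono {F F' : Finset (V × V)} {u v : V} (h : Con F u v) (hF : F ⊆ F') : Con F' u v :=
  fun σ hσ => h σ fun e he => hσ e (hF he)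

theorem Con.eq {F : Finset (V × V)} {u v : V} (h : Con F u v) {α : Type} (σ : V → α)
    (hσ : ∀ e ∈ F, σ e.1 = σ e.2) : σ u = σ v :=
  ((h (fun x => σ x = σ v) fun e he => by rw [hσ e he]).2 rfl)

variable [Fintype V]

/-- a ranking of the arcs -/
noncomputable def rk (e : V × V) : ℕ := Fintype.equivFin (V × V) e

theorem rk_inj : Function.Injective (rk : V × V → ℕ) := fun _ _ h =>
  (Fintype.equivFin _).injective (Fin.ext h)

/-- no broken circuit -/
def NBC (D F : Finset (V × V)) : Prop :=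
  ∀ e ∈ D, ¬ Con (F.filter fun f => rk e < rk f) e.1 e.2

theorem NBC.mono {D F F' : Finset (V × V)} (h : NBC D F') (hF : F ⊆ F') : NBC D F :=
  fun e he hc => h e he (hc.mono (filter_subset_filter _ hF))

theorem nbc_empty {D : Finset (V × V)} (hD : ∀ e ∈ D, e.1 ≠ e.2) : NBC D ∅ := fun e he hc =>
  hD e he (hc.eq id (by simp))

/-- Whitney cancellation for one colouring -/
theorem whitney_pt {D : Finset (V × V)} (hD : ∀ e ∈ D, e.1 ≠ e.2) {α : Type} (σ : V → α) :
    ∑ F ∈ D.powerset, (if NBC D F ∧ ∀ e ∈ F, σ e.1 = σ e.2 then (-1 : ℂ) ^ F.card else 0) =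
      if ∀ e ∈ D, σ e.1 ≠ σ e.2 then 1 else 0 := by
  split_ifs with h
  · rw [sum_eq_single ∅]
    · simp [nbc_empty hD]
    · intro F hF hne
      obtain ⟨e, he⟩ := nonempty_iff_ne_empty.2 hne
      exact if_neg fun hc => h e (mem_powerset.1 hF he) (hc.2 e he)
    · simp
  · push Not at h
    obtain ⟨e, he, hmin⟩ := exists_min_image (D.filter fun e => σ e.1 = σ e.2) rk
      (by obtain ⟨e, he, h⟩ := h; exact ⟨e, mem_filter.2 ⟨he, h⟩⟩)
    rw [mem_filter] at he
    rw [← insert_erase he.1, sum_powerset_insert (notMem_erase _ _), ← sum_add_distrib,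
      insert_erase he.1]
    refine sum_eq_zero fun F hF => ?_
    have hn : e ∉ F := fun h => notMem_erase _ _ (mem_powerset.1 hF h)
    by_cases hc : NBC D F ∧ ∀ e ∈ F, σ e.1 = σ e.2
    · have hm : ∀ f ∈ insert e F, σ f.1 = σ f.2 := by
        intro f hf
        rcases mem_insert.1 hf with rfl | hf
        · exact he.2
        · exact hc.2 f hf
      have hi : NBC D (insert e F) := fun f hf hcon => by
        have h1 := hmin f (mem_filter.2 ⟨hf, hcon.eq σ fun g hg => hm g (mem_filter.1 hg).1⟩)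
        refine hc.1 f hf (hcon.mono fun g hg => ?_)
        rw [mem_filter, mem_insert] at hg
        rcases hg with ⟨rfl | hg, h2⟩
        · omega
        · exact mem_filter.2 ⟨hg, h2⟩
      rw [if_pos hc, if_pos ⟨hi, hm⟩, card_insert_of_notMem hn]
      ring
    · rw [if_neg hc, if_neg fun h => hc ⟨h.1.mono (subset_insert _ _),
        fun f hf => h.2 f (mem_insert_of_mem hf)⟩, add_zero]

/-- the number of colourings that are constant along `F` -/
noncomputable def N (m : ℕ) (F : Finset (V × V)) : ℕ :=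
  (univ.filter fun σ : V → Fin (m + 1) => ∀ e ∈ F, σ e.1 = σ e.2).card

theorem N_insert (m : ℕ) {F : Finset (V × V)} {e : V × V} (h : ¬ Con F e.1 e.2) :
    N m (insert e F) * (m + 1) = N m F := by
  obtain ⟨Y, hY, h1, h2⟩ : ∃ Y : V → Prop, (∀ f ∈ F, (Y f.1 ↔ Y f.2)) ∧ Y e.1 ∧ ¬ Y e.2 := by
    unfold Con at h
    push Not at h
    obtain ⟨Y, hY, h | h⟩ := h
    · exact ⟨Y, hY, h⟩
    · exact ⟨fun x => ¬ Y x, fun f hf => not_congr (hY f hf), h.1, not_not.2 h.2⟩
  unfold N
  rw [card_eq_sum_card_fiberwise (f := fun σ : V → Fin (m + 1) => σ e.1 - σ e.2)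
    (s := univ.filter fun σ : V → Fin (m + 1) => ∀ e ∈ F, σ e.1 = σ e.2) (t := univ)
    (fun _ _ => mem_coe.2 (mem_univ _))]
  rw [sum_congr rfl (g := fun _ =>
    (univ.filter fun σ : V → Fin (m + 1) => ∀ f ∈ insert e F, σ f.1 = σ f.2).card)]
  · simp [mul_comm]
  · intro c _
    refine card_bij' (fun σ _ x => if Y x then σ x - c else σ x)
      (fun σ _ x => if Y x then σ x + c else σ x) ?_ ?_ ?_ ?_
    · intro σ hσ
      simp only [mem_filter, mem_univ, true_and, forall_mem_insert] at hσ ⊢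
      refine ⟨?_, fun f hf => ?_⟩
      · rw [if_pos h1, if_neg h2, ← hσ.2]
        abel
      · simp only [hY f hf, hσ.1 f hf]
    · intro σ hσ
      simp only [mem_filter, mem_univ, true_and, forall_mem_insert] at hσ ⊢
      refine ⟨fun f hf => ?_, ?_⟩
      · simp only [hY f hf, hσ.2 f hf]
      · rw [if_pos h1, if_neg h2, hσ.1]
        abel
    · intro σ _
      funext x
      by_cases hx : Y x <;> simp [hx]
    · intro σ _
      funext x
      by_cases hx : Y x <;> simp [hx]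

theorem N_nbc (m : ℕ) {D : Finset (V × V)} (F : Finset (V × V)) :
    F ⊆ D → NBC D F → N m F * (m + 1) ^ F.card = (m + 1) ^ Fintype.card V := by
  induction F using Finset.induction_on_min_value (rk : V × V → ℕ) with
  | empty => intro _ _; simp [N]
  | insert e F he hmin ih =>
    intro hD hF
    have h1 := ih ((subset_insert _ _).trans hD) (hF.mono (subset_insert _ _))
    have h2 : ¬ Con F e.1 e.2 := fun hc => hF e (hD (mem_insert_self _ _)) <| hc.mono fun f hf =>
      mem_filter.2 ⟨mem_insert_of_mem hf,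
        lt_of_le_of_ne (hmin f hf) fun h => he (rk_inj h ▸ hf)⟩
    rw [card_insert_of_notMem he, ← h1, ← N_insert m h2]
    ring

/-- the chromatic polynomial vanishes at `z` only if the sum over forests does -/
theorem whitney {G : SimpleGraph V} {D : Finset (V × V)} (h1 : ∀ e ∈ D, G.Adj e.1 e.2)
    (h2 : ∀ a b, G.Adj a b → (a, b) ∈ D ∨ (b, a) ∈ D) {P : Polynomial ℂ}
    (hP : ∀ n : ℕ, P.eval (n : ℂ) = (Nat.card (G.Coloring (Fin n)) : ℂ)) {z : ℂ} (hz : z ≠ 0)
    (h0 : P.eval z = 0) :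
    ∑ F ∈ D.powerset, (if NBC D F then (-1 : ℂ) ^ F.card * z ^ (D.card - F.card) else 0) = 0 := by
  have hD : ∀ e ∈ D, e.1 ≠ e.2 := fun e he => (h1 e he).ne
  have hc : ∀ m : ℕ, (Nat.card (G.Coloring (Fin (m + 1))) : ℂ) =
      ∑ F ∈ D.powerset, if NBC D F then (-1 : ℂ) ^ F.card * N m F else 0 := by
    intro m
    have e1 : Nat.card (G.Coloring (Fin (m + 1))) =
        (univ.filter fun σ : V → Fin (m + 1) => ∀ e ∈ D, σ e.1 ≠ σ e.2).card := by
      rw [← Fintype.card_subtype, ← Nat.card_eq_fintype_card]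
      refine Nat.card_congr ⟨fun c => ⟨c, fun e he => c.valid (h1 e he)⟩,
        fun σ => SimpleGraph.Coloring.mk σ.1 fun {a b} h => ?_, fun _ => rfl, fun _ => rfl⟩
      rcases h2 a b h with h | h
      · exact σ.2 _ h
      · exact (σ.2 _ h).symm
    rw [e1, card_filter]
    push_cast
    refine (sum_congr rfl fun σ _ => (by convert (whitney_pt hD σ).symm)).trans
      (sum_comm.trans (sum_congr rfl fun F _ => ?_))
    by_cases hF : NBC D F
    · simp only [hF, true_and, if_true, N, card_filter]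
      push_cast
      rw [mul_sum]
      exact sum_congr rfl fun σ _ => by split_ifs <;> simp
    · simp [hF]
  have hQ : P * Polynomial.X ^ D.card - Polynomial.X ^ Fintype.card V * ∑ F ∈ D.powerset,
      (if NBC D F then (-1) ^ F.card * Polynomial.X ^ (D.card - F.card) else 0) = 0 := by
    refine Polynomial.eq_zero_of_infinite_isRoot _ (Set.infinite_of_injective_forall_mem
      (f := fun m : ℕ => ((m + 1 : ℕ) : ℂ)) (fun a b h => by simpa using h) fun m => ?_)
    simp only [Set.mem_ofPred_eq, Polynomial.IsRoot, Polynomial.eval_sub, Polynomial.eval_mul,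
      Polynomial.eval_pow, Polynomial.eval_X, hP, hc, Polynomial.eval_finsetSum, sum_mul, mul_sum,
      ← sum_sub_distrib]
    refine sum_eq_zero fun F hF => ?_
    rw [mem_powerset] at hF
    split_ifs with h
    · have h3 : (N m F : ℂ) * ((m + 1 : ℕ) : ℂ) ^ F.card = ((m + 1 : ℕ) : ℂ) ^ Fintype.card V := by
        exact_mod_cast N_nbc m F hF h
      have h4 : ((m + 1 : ℕ) : ℂ) ^ D.card =
          ((m + 1 : ℕ) : ℂ) ^ F.card * ((m + 1 : ℕ) : ℂ) ^ (D.card - F.card) := by
        rw [← pow_add, Nat.add_sub_cancel' (card_le_card hF)]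
      simp only [Polynomial.eval_mul, Polynomial.eval_pow, Polynomial.eval_neg, Polynomial.eval_one,
        Polynomial.eval_X]
      rw [← h3, h4]
      ring
    · simp
  have h5 := congrArg (Polynomial.eval z) hQ
  simp only [Polynomial.eval_sub, Polynomial.eval_mul, Polynomial.eval_pow, Polynomial.eval_X, h0,
    zero_mul, zero_sub, Polynomial.eval_zero, neg_eq_zero, mul_eq_zero, pow_eq_zero_iff', hz,
    false_and, false_or, Polynomial.eval_finsetSum] at h5
  refine (sum_congr rfl fun F _ => ?_).trans h5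
  split_ifs <;> simp

end Pool.Agent.MP_cb5fda_co.Deg

end MrgPart0

-- ======== part 1: formerly Pool.Agent.MP_cb5fda_co.h21.Deg2
section MrgPart1

/-! The expansion around the value on forests: a gas of two-edge-connected sets. -/

set_option autoImplicit false

namespace Pool.Agent.MP_cb5fda_co.Deg

open Finset Classical

theorem sum_powerset_union {α : Type} [DecidableEq α] {A : Finset α} (B : Finset α) :
    ∀ g : Finset α → ℂ, Disjoint A B →
      ∑ F ∈ (A ∪ B).powerset, g F = ∑ F ∈ A.powerset, ∑ F' ∈ B.powerset, g (F ∪ F') := by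
  induction B using Finset.induction_on with
  | empty => intro g _; simp
  | insert b B hb ih =>
    intro g h
    rw [disjoint_insert_right] at h
    rw [union_insert, sum_powerset_insert (by simp [h.1, hb]), ih _ h.2, ih _ h.2,
      ← sum_add_distrib]
    refine sum_congr rfl fun F _ => ?_
    rw [sum_powerset_insert hb]
    simp only [union_insert]

theorem sum_pairs {α : Type} (y : ℂ) (D : Finset α) : ∀ g : Finset α → ℂ,
    ∑ U ∈ D.powerset, ∑ F ∈ U.powerset, g F * y ^ (U.card - F.card) =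
      ∑ F ∈ D.powerset, g F * (1 + y) ^ (D.card - F.card) := by
  induction D using Finset.induction_on with
  | empty => intro g; simp
  | insert a D ha ih =>
    intro g
    have h1 : ∀ U ∈ D.powerset, ∑ F ∈ (insert a U).powerset, g F * y ^ ((insert a U).card - F.card)
        = y * ∑ F ∈ U.powerset, g F * y ^ (U.card - F.card) +
          ∑ F ∈ U.powerset, g (insert a F) * y ^ (U.card - F.card) := by
      intro U hU
      have hU' : a ∉ U := fun h => ha (mem_powerset.1 hU h)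
      rw [sum_powerset_insert hU', mul_sum, card_insert_of_notMem hU']
      congr 1
      · refine sum_congr rfl fun F hF => ?_
        rw [Nat.sub_add_comm (card_le_card (mem_powerset.1 hF))]
        ring
      · refine sum_congr rfl fun F hF => ?_
        rw [card_insert_of_notMem fun h => hU' (mem_powerset.1 hF h), Nat.add_sub_add_right]
    rw [sum_powerset_insert ha, sum_powerset_insert ha, sum_congr rfl h1, sum_add_distrib,
      ← mul_sum, ih, ih fun F => g (insert a F), card_insert_of_notMem ha, ← add_assoc, mul_sum,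
      ← sum_add_distrib]
    congr 1
    · refine sum_congr rfl fun F hF => ?_
      rw [Nat.sub_add_comm (card_le_card (mem_powerset.1 hF))]
      ring
    · refine sum_congr rfl fun F hF => ?_
      rw [card_insert_of_notMem fun h => ha (mem_powerset.1 hF h), Nat.add_sub_add_right]

variable {V : Type}

/-- the arcs inside a set -/
noncomputable def Ed (D : Finset (V × V)) (X : Finset V) : Finset (V × V) :=
  D.filter fun e => e.1 ∈ X ∧ e.2 ∈ X

theorem mem_Ed {D : Finset (V × V)} {X : Finset V} {e : V × V} :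
    e ∈ Ed D X ↔ e ∈ D ∧ e.1 ∈ X ∧ e.2 ∈ X := mem_filter

theorem con_left {S : V → Prop} {F F' : Finset (V × V)} (h : ∀ e ∈ F, S e.1 ∧ S e.2)
    (h' : ∀ e ∈ F', ¬ S e.1 ∧ ¬ S e.2) {a b : V} (ha : S a) (hc : Con (F ∪ F') a b) :
    S b ∧ Con F a b := by
  have hb : S b := (hc S fun e he => by
    rcases mem_union.1 he with he | he
    · simp [h e he]
    · simp [h' e he]).1 ha
  refine ⟨hb, fun σ hσ => ?_⟩
  have := hc (fun x => S x ∧ σ x) fun e he => by
    rcases mem_union.1 he with he | he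
    · simp [h e he, hσ e he]
    · simp [h' e he]
  simpa [ha, hb] using this

variable [Fintype V]

theorem nbc_union {D F F' : Finset (V × V)} {S : V → Prop} (h : ∀ e ∈ F, S e.1 ∧ S e.2)
    (h' : ∀ e ∈ F', ¬ S e.1 ∧ ¬ S e.2) : NBC D (F ∪ F') ↔ NBC D F ∧ NBC D F' := by
  refine ⟨fun H => ⟨H.mono subset_union_left, H.mono subset_union_right⟩, fun H e he hc => ?_⟩
  rw [filter_union] at hc
  by_cases ha : S e.1
  · exact H.1 e he (con_left (fun f hf => h f (mem_filter.1 hf).1)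
      (fun f hf => h' f (mem_filter.1 hf).1) ha hc).2
  · rw [union_comm] at hc
    exact H.2 e he (con_left (S := fun x => ¬ S x) (fun f hf => h' f (mem_filter.1 hf).1)
      (fun f hf => by simpa using h f (mem_filter.1 hf).1) ha hc).2

/-- the weight of a set of arcs -/
noncomputable def W (D : Finset (V × V)) (t : ℂ) (U : Finset (V × V)) : ℂ :=
  ∑ F ∈ U.powerset, (if NBC D F then t ^ F.card else 0) * (-t) ^ (U.card - F.card)

theorem W_union {D U U' : Finset (V × V)} (t : ℂ) {S : V → Prop} (h : ∀ e ∈ U, S e.1 ∧ S e.2)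
    (h' : ∀ e ∈ U', ¬ S e.1 ∧ ¬ S e.2) : W D t (U ∪ U') = W D t U * W D t U' := by
  have hd : Disjoint U U' := disjoint_left.2 fun e he he' => (h' e he').1 (h e he).1
  unfold W
  rw [sum_powerset_union _ _ hd, sum_mul_sum]
  refine sum_congr rfl fun F hF => sum_congr rfl fun F' hF' => ?_
  rw [mem_powerset] at hF hF'
  have h1 := card_le_card hF
  have h2 := card_le_card hF'
  rw [nbc_union (fun e he => h e (hF he)) fun e he => h' e (hF' he), card_union_of_disjoint hd,
    card_union_of_disjoint (hd.mono hF hF'),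
    show U.card + U'.card - (F.card + F'.card) = (U.card - F.card) + (U'.card - F'.card) by omega]
  by_cases a : NBC D F <;> by_cases b : NBC D F' <;> simp [a, b, pow_add]
  ring

theorem W_norm (D U : Finset (V × V)) (t : ℂ) : ‖W D t U‖ ≤ (2 * ‖t‖) ^ U.card := by
  refine (norm_sum_le _ _).trans ((sum_le_card_nsmul _ _ (‖t‖ ^ U.card) fun F hF => ?_).trans ?_)
  · split_ifs
    · rw [norm_mul, norm_pow, norm_pow, norm_neg, ← pow_add,
        Nat.add_sub_cancel' (card_le_card (mem_powerset.1 hF))]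
    · simp
  · simp [mul_pow]

theorem W_cut {D U : Finset (V × V)} (hD : ∀ e ∈ D, e.1 ≠ e.2) (t : ℂ) {S : Finset V}
    (hU : U ⊆ Ed D S) {Y : V → Prop} {f : V × V} (hf : f ∈ U) (hY : ¬ (Y f.1 ↔ Y f.2))
    (h1 : ∀ e ∈ Ed D S, e ≠ f → (Y e.1 ↔ Y e.2)) : W D t U = 0 := by
  unfold W
  rw [← insert_erase hf, sum_powerset_insert (notMem_erase _ _), ← sum_add_distrib, insert_erase hf]
  refine sum_eq_zero fun F hF => ?_
  rw [mem_powerset] at hF
  have hn : f ∉ F := fun h => notMem_erase _ _ (hF h)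
  have hc := card_le_card hF
  have hc' := card_erase_add_one hf
  have hFU : insert f F ⊆ Ed D S := insert_subset (hU hf) (hF.trans ((erase_subset _ _).trans hU))
  have key : NBC D (insert f F) ↔ NBC D F := by
    refine ⟨fun H => H.mono (subset_insert _ _), fun H e he hcon => H e he fun σ hσ => ?_⟩
    by_cases hef : e = f
    · refine hcon σ fun g hg => ?_
      rw [mem_filter, mem_insert] at hg
      rcases hg with ⟨rfl | hg, h2⟩
      · simp [hef] at h2
      · exact hσ g (mem_filter.2 ⟨hg, h2⟩)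
    have hS : ∀ x, x = e.1 ∨ x = e.2 → x ∈ S := fun x hx => by
      by_contra hx'
      have := hcon (fun y => y = x) fun g hg => by
        have := mem_Ed.1 (hFU (mem_filter.1 hg).1)
        exact iff_of_false (fun h => hx' (h ▸ this.2.1)) fun h => hx' (h ▸ this.2.2)
      rcases hx with rfl | rfl
      · exact hD e he (this.1 rfl).symm
      · exact hD e he (this.2 rfl)
    have h2 := h1 e (mem_Ed.2 ⟨he, hS _ (Or.inl rfl), hS _ (Or.inr rfl)⟩) hef
    have := hcon (fun y => if Y y ↔ Y e.1 then σ y else if Y f.1 ↔ Y e.1 then σ f.1 else σ f.2)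
      fun g hg => by
        rw [mem_filter, mem_insert] at hg
        rcases hg with ⟨rfl | hg, h3⟩
        · by_cases a : Y g.1 <;> by_cases b : Y g.2 <;> by_cases c : Y e.1 <;> simp_all
        · have a := h1 g (hFU (mem_insert_of_mem hg)) fun h => hn (h ▸ hg)
          have b := hσ g (mem_filter.2 ⟨hg, h3⟩)
          simp only [a, b]
    simpa [h2] using this
  rw [key, card_insert_of_notMem hn, show U.card - F.card = U.card - (F.card + 1) + 1 by omega]
  split_ifs
  · ring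
  · simp

/-- the normalised chromatic polynomial -/
noncomputable def K (D : Finset (V × V)) (t : ℂ) (X : Finset V) : ℂ :=
  ∑ U ∈ (Ed D X).powerset, W D t U

/-- the weight of a set of vertices -/
noncomputable def w (D : Finset (V × V)) (t : ℂ) (v : V) (S : Finset V) : ℂ :=
  ∑ U ∈ (Ed D S).powerset, if ∀ u ∈ S, Con U v u then W D t U else 0

theorem K_rec (D : Finset (V × V)) (t : ℂ) {X : Finset V} {v : V} (hv : v ∈ X) :
    K D t X = ∑ S ∈ X.powerset, if v ∈ S then w D t v S * K D t (X \ S) else 0 := by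
  unfold K
  rw [← sum_fiberwise_of_maps_to (g := fun U => X.filter fun u => Con U v u) (t := X.powerset)
    fun U _ => mem_powerset.2 (filter_subset _ _)]
  refine sum_congr rfl fun S hS => ?_
  rw [mem_powerset] at hS
  split_ifs with h
  · have hd : Disjoint (Ed D S) (Ed D (X \ S)) := disjoint_left.2 fun e he he' =>
      (mem_sdiff.1 (mem_Ed.1 he').2.1).2 (mem_Ed.1 he).2.1
    rw [sum_filter, ← sum_subset (s₁ := (Ed D S ∪ Ed D (X \ S)).powerset), sum_powerset_union _ _ hd,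
      w, sum_mul_sum]
    · refine sum_congr rfl fun U hU => sum_congr rfl fun U' hU' => ?_
      rw [mem_powerset] at hU hU'
      have a : ∀ e ∈ U, e.1 ∈ S ∧ e.2 ∈ S := fun e he => (mem_Ed.1 (hU he)).2
      have b : ∀ e ∈ U', e.1 ∉ S ∧ e.2 ∉ S := fun e he =>
        ⟨(mem_sdiff.1 (mem_Ed.1 (hU' he)).2.1).2, (mem_sdiff.1 (mem_Ed.1 (hU' he)).2.2).2⟩
      have c : (X.filter fun u => Con (U ∪ U') v u) = S ↔ ∀ u ∈ S, Con U v u := by
        constructor
        · intro H u hu
          rw [← H] at hu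
          exact (con_left (S := (· ∈ S)) a b h (mem_filter.1 hu).2).2
        · intro H
          ext u
          exact ⟨fun hu => (con_left (S := (· ∈ S)) a b h (mem_filter.1 hu).2).1,
            fun hu => mem_filter.2 ⟨hS hu, (H u hu).mono subset_union_left⟩⟩
      simp only [c]
      split_ifs
      · exact W_union t (S := (· ∈ S)) a b
      · simp
    · refine powerset_mono.2 (union_subset (fun e he => ?_) fun e he => ?_) <;> rw [mem_Ed] at he ⊢
      · exact ⟨he.1, hS he.2.1, hS he.2.2⟩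
      · exact ⟨he.1, (mem_sdiff.1 he.2.1).1, (mem_sdiff.1 he.2.2).1⟩
    · intro U hU hU'
      refine if_neg fun H => hU' (mem_powerset.2 fun e he => ?_)
      have a := mem_Ed.1 (mem_powerset.1 hU he)
      have b : e.1 ∈ S ↔ e.2 ∈ S := by
        rw [← H]
        simp only [mem_filter, a, true_and]
        exact ⟨fun c σ hσ => (c σ hσ).trans (hσ e he), fun c σ hσ => (c σ hσ).trans (hσ e he).symm⟩
      simp only [mem_union, mem_Ed, mem_sdiff, a, ← b, true_and, and_self]
      exact _root_.em _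
  · refine sum_eq_zero fun U hU => absurd ?_ h
    rw [← (mem_filter.1 hU).2]
    exact mem_filter.2 ⟨hv, fun _ _ => Iff.rfl⟩

theorem W_empty {D : Finset (V × V)} (hD : ∀ e ∈ D, e.1 ≠ e.2) (t : ℂ) : W D t ∅ = 1 := by
  simp [W, nbc_empty hD]

/-- the induction of Dobrushin -/
theorem K_ne {D : Finset (V × V)} (hD : ∀ e ∈ D, e.1 ≠ e.2) (t : ℂ)
    (h : ∀ v, ∑ S : Finset V, (if v ∈ S ∧ S ≠ {v} then ‖w D t v S‖ * 2 ^ (S.card - 1) else 0) ≤ 1 / 2)
    (X : Finset V) : K D t X ≠ 0 ∧ ∀ T : Finset V, ‖K D t (X \ T)‖ ≤ 2 ^ T.card * ‖K D t X‖ := by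
  induction X using Finset.strongInduction with
  | H X ih =>
    have key : ∀ v ∈ X, ‖K D t (X.erase v)‖ ≤ 2 * ‖K D t X‖ := by
      intro v hv
      have e1 : Ed D {v} = ∅ := filter_eq_empty_iff.2 fun e he hc => hD e he <| by
        rw [mem_singleton.1 hc.1, mem_singleton.1 hc.2]
      have e2 : w D t v {v} = 1 := by
        have : Con (∅ : Finset (V × V)) v v := fun _ _ => Iff.rfl
        simp [w, e1, W_empty hD, this]
      have e3 := K_rec D t hv
      rw [← add_sum_erase _ _ (mem_powerset.2 (singleton_subset_iff.2 hv)),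
        if_pos (mem_singleton_self v), e2, one_mul, sdiff_singleton_eq_erase] at e3
      have e4 : ‖K D t (X.erase v) - K D t X‖ ≤ 1 / 2 * ‖K D t (X.erase v)‖ := by
        rw [e3, sub_add_cancel_left, norm_neg]
        refine (norm_sum_le _ _).trans (le_trans ?_ (mul_le_mul_of_nonneg_right (h v)
          (norm_nonneg _)))
        rw [sum_mul]
        refine (sum_le_sum fun S hS => ?_).trans (sum_le_sum_of_subset_of_nonneg (subset_univ _)
          fun S _ _ => by split_ifs <;> positivity)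
        by_cases hS' : v ∈ S
        · have := (ih _ (erase_ssubset hv)).2 (S.erase v)
          rw [show X.erase v \ S.erase v = X \ S by ext x; by_cases a : x = v <;> simp [a, hS'],
            card_erase_of_mem hS'] at this
          rw [if_pos hS', if_pos ⟨hS', (mem_erase.1 hS).1⟩, norm_mul, mul_assoc]
          gcongr
        · simp [hS']
      have := norm_sub_norm_le (K D t (X.erase v)) (K D t X)
      linarith
    constructor
    · rcases X.eq_empty_or_nonempty with rfl | ⟨v, hv⟩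
      · simp [K, Ed, W_empty hD]
      · intro h0
        have := key v hv
        rw [h0, norm_zero, mul_zero] at this
        exact (ih _ (erase_ssubset hv)).1 (norm_le_zero_iff.1 this)
    · intro T
      by_cases hT : Disjoint X T
      · rw [sdiff_eq_self_of_disjoint hT]
        exact le_mul_of_one_le_left (norm_nonneg _) (one_le_pow₀ one_le_two)
      · obtain ⟨v, hv, hv'⟩ := not_disjoint_iff.1 hT
        have := (ih _ (erase_ssubset hv)).2 (T.erase v)
        rw [show X.erase v \ T.erase v = X \ T by ext x; by_cases a : x = v <;> simp [a, hv']]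
          at this
        rw [← card_erase_add_one hv', pow_succ, mul_assoc]
        exact this.trans (mul_le_mul_of_nonneg_left (key v hv) (by positivity))

theorem K_univ {D : Finset (V × V)} {z : ℂ} (hz : z - 1 ≠ 0)
    (h : ∑ F ∈ D.powerset, (if NBC D F then (-1 : ℂ) ^ F.card * z ^ (D.card - F.card) else 0) = 0) :
    K D (-(z - 1)⁻¹) univ = 0 := by
  unfold K W
  rw [show Ed D univ = D by simp [Ed], sum_pairs]
  have h' := congrArg ((z - 1)⁻¹ ^ D.card * ·) h
  simp only [mul_zero, mul_sum] at h'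
  refine (sum_congr rfl fun F hF => ?_).trans h'
  split_ifs
  · obtain ⟨j, hj⟩ := Nat.exists_eq_add_of_le (card_le_card (mem_powerset.1 hF))
    rw [hj, Nat.add_sub_cancel_left, show 1 + - -(z - 1)⁻¹ = (z - 1)⁻¹ * z by field_simp; ring,
      neg_pow, mul_pow, pow_add]
    ring
  · simp

end Pool.Agent.MP_cb5fda_co.Deg

end MrgPart1

-- ======== part 2: formerly Pool.Agent.MP_cb5fda_co.h21.Deg3
section MrgPart2

/-! Weighted trees and the skeleton of a two-edge-connected set. -/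

set_option autoImplicit false

namespace Pool.Agent.MP_cb5fda_co.Deg

open Finset Classical

variable {V : Type}

/-- `K` is the set of the vertices other than the root of a tree of weight `a` -/
inductive Tr (c : V → V → ℝ) : ℕ → V → Finset V → ℝ → Prop
  | nil (n : ℕ) (v : V) : Tr c n v ∅ 1
  | join {n : ℕ} {v y : V} {A B : Finset V} {a b : ℝ} : Tr c n v A a → Tr c n y B b →
      Tr c (n + 1) v (A ∪ insert y B) (a * c v y * b)

theorem Tr.succ {c : V → V → ℝ} {n : ℕ} {v : V} {K : Finset V} {a : ℝ} (h : Tr c n v K a) :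
    Tr c (n + 1) v K a := by
  induction h with
  | nil => exact .nil _ _
  | join _ _ h1 h2 => exact .join h1 h2

theorem Tr.mono {c : V → V → ℝ} {n m : ℕ} {v : V} {K : Finset V} {a : ℝ} (h : Tr c n v K a)
    (hm : n ≤ m) : Tr c m v K a := by
  induction hm with
  | refl => exact h
  | step _ ih => exact ih.succ

theorem Tr.leaf {c : V → V → ℝ} {n : ℕ} {v : V} {K : Finset V} {a : ℝ} (h : Tr c n v K a) (z : V) :
    ∀ p ∈ insert v K, Tr c (n + 1) v (insert z K) (a * c p z) := by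
  induction h with
  | nil n v =>
    intro p hp
    obtain rfl : p = v := by simpa using hp
    simpa using Tr.join (y := z) (Tr.nil (c := c) n p) (Tr.nil n z)
  | @join n v y A B a b h1 h2 i1 i2 =>
    intro p hp
    by_cases h : p ∈ insert v A
    · convert Tr.join (i1 p h) h2.succ using 1
      · simp only [insert_union]
      · ring
    · convert Tr.join h1.succ (i2 p (by simp only [mem_insert, mem_union] at hp h ⊢; tauto)) using 1
      · ext u
        simp only [mem_insert, mem_union]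
        tauto
      · ring

theorem Tr.walk {c : V → V → ℝ} {H : SimpleGraph V} {v s s' : V} (p : H.Walk s s') :
    p.IsPath → ∀ (K : Finset V) (a : ℝ), Tr c K.card v K a → s ∈ K →
      (∀ y ∈ p.support, y ∈ K → y = s) → ∃ K' : Finset V, (∀ y ∈ K', y ∈ K ∨ y ∈ p.support) ∧
      K'.card = K.card + p.length ∧
      Tr c K'.card v K' (a * (p.darts.map fun d => c d.fst d.snd).prod) := by
  induction p with
  | nil => intro _ K a h _ _; exact ⟨K, fun y hy => Or.inl hy, by simp, by simpa using h⟩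
  | @cons s y s' hadj p ih =>
    intro hp K a h hs hK
    rw [SimpleGraph.Walk.cons_isPath_iff] at hp
    have hn : ∀ u ∈ p.support, u ∉ K := fun u hu hu' =>
      hp.2 (hK u (by simp [hu]) hu' ▸ hu)
    have hy := hn y p.start_mem_support
    obtain ⟨K', a1, a2, a3⟩ := ih hp.1 (insert y K) (a * c s y)
      (by rw [card_insert_of_notMem hy]; exact h.leaf y s (mem_insert_of_mem hs))
      (mem_insert_self _ _) fun u hu hu' => (mem_insert.1 hu').resolve_right (hn u hu)
    refine ⟨K', fun u hu => ?_, ?_, by simpa [mul_assoc] using a3⟩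
    · rcases a1 u hu with h | h
      · rcases mem_insert.1 h with rfl | h
        · simp
        · exact Or.inl h
      · simp [h]
    · rw [a2, card_insert_of_notMem hy, SimpleGraph.Walk.length_cons]
      ring

/-- the cost of a step -/
noncomputable def cw (D : Finset (V × V)) (x l : ℝ) (a b : V) : ℝ :=
  if (a, b) ∈ D then x * l ^ 3 else if (b, a) ∈ D then x / l else 0

theorem cw_list {D : Finset (V × V)} (hD : ∀ a b, (a, b) ∈ D → (b, a) ∉ D) (x l : ℝ)
    {H : SimpleGraph V} (hH : ∀ a b, H.Adj a b → (a, b) ∈ D ∨ (b, a) ∈ D) (L : List H.Dart) :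
    ∃ u d : ℕ, u + d = L.length ∧
      (L.map fun e => cw D x l e.fst e.snd).prod = (x * l ^ 3) ^ u * (x / l) ^ d ∧
      (L.map fun e => cw D x l e.snd e.fst).prod = (x * l ^ 3) ^ d * (x / l) ^ u := by
  induction L with
  | nil => exact ⟨0, 0, by simp⟩
  | cons e L ih =>
    obtain ⟨u, d, h1, h2, h3⟩ := ih
    simp only [List.map_cons, List.prod_cons, List.length_cons, h2, h3, ← h1]
    rcases hH _ _ e.adj with h | h
    · refine ⟨u + 1, d, by ring, ?_, ?_⟩ <;> simp only [cw, h, hD _ _ h, if_true, if_false] <;> ring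
    · refine ⟨u, d + 1, by ring, ?_, ?_⟩ <;> simp only [cw, h, hD _ _ h, if_true, if_false] <;> ring

theorem skel {D : Finset (V × V)} (hD : ∀ a b, (a, b) ∈ D → (b, a) ∉ D) {x l : ℝ} (hx : 0 ≤ x)
    (hl : 1 ≤ l) {S : Finset V} {v : V} (hv : v ∈ S) (hS : S ≠ {v})
    (hc : ∀ Y : V → Prop, ∀ a ∈ S, Y a → ¬ Y v → ∃ e ∈ Ed D S, ∃ f ∈ Ed D S, e ≠ f ∧
      ¬ (Y e.1 ↔ Y e.2) ∧ ¬ (Y f.1 ↔ Y f.2)) :
    ∃ K ⊆ S.erase v, K ≠ ∅ ∧ (∃ a, Tr (cw D x l) K.card v K a ∧ x ^ K.card ≤ a) ∧
      ∀ y ∈ S, y ∉ insert v K → ∀ u ∈ S, (u, y) ∉ D := by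
  obtain ⟨K, hK, hmax⟩ := exists_max_image ((S.erase v).powerset.filter fun K =>
    ∃ a, Tr (cw D x l) K.card v K a ∧ x ^ K.card ≤ a) card
    ⟨∅, mem_filter.2 ⟨by simp, 1, .nil _ _, by simp⟩⟩
  rw [mem_filter, mem_powerset] at hK
  obtain ⟨hKS, a, ha, hxa⟩ := hK
  have hl0 : 0 < l := by linarith
  have ha0 : 0 ≤ a := (pow_nonneg hx _).trans hxa
  have fin : ∀ (K' : Finset V) (u d : ℕ) (b : ℝ), K' ⊆ S.erase v → K'.card = K.card + (u + d) →
      0 < u → d ≤ 3 * u → Tr (cw D x l) K'.card v K' b →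
      a * ((x * l ^ 3) ^ u * (x / l) ^ d) ≤ b → False := by
    intro K' u d b h1 h2 h3 h4 h5 h6
    have := hmax K' (mem_filter.2 ⟨mem_powerset.2 h1, b, h5, le_trans ?_ h6⟩)
    · omega
    · rw [h2, pow_add, mul_pow, div_pow, ← pow_mul, pow_add]
      refine mul_le_mul hxa ?_ (by positivity) ha0
      rw [mul_assoc, ← mul_div_assoc, mul_comm (l ^ _), mul_div_assoc]
      exact mul_le_mul_of_nonneg_left (le_mul_of_one_le_right (by positivity)
        ((one_le_div (by positivity)).2 (pow_le_pow_right₀ hl h4))) (by positivity)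
  have lo : ∀ p z, (p, z) ∈ D ∨ (z, p) ∈ D → x / l ≤ cw D x l p z := by
    intro p z h
    unfold cw
    split_ifs with h1 h2
    · exact (div_le_self hx hl).trans (le_mul_of_one_le_right hx (one_le_pow₀ hl))
    · exact le_rfl
    · exact (h.elim h1 h2).elim
  have ins : ∀ {A : Finset V} {z : V}, A ⊆ S.erase v → z ∈ S → z ∉ insert v K →
      insert z A ⊆ S.erase v := fun h1 h2 h3 =>
    insert_subset (mem_erase.2 ⟨fun h => h3 (h ▸ mem_insert_self _ _), h2⟩) h1
  have one : ∀ p ∈ insert v K, ∀ z, z ∉ insert v K → (insert z K).card = K.card + 1 ∧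
      Tr (cw D x l) (insert z K).card v (insert z K) (a * cw D x l p z) := by
    intro p hp z hz
    have := card_insert_of_notMem fun h => hz (mem_insert_of_mem h)
    exact ⟨this, this ▸ ha.leaf z p hp⟩
  have up : ∀ p ∈ insert v K, ∀ z ∈ S, z ∉ insert v K → (p, z) ∉ D := fun p hp z hz hz' h =>
    fin _ 1 0 _ (ins hKS hz hz') (one p hp z hz').1 one_pos (by omega) (one p hp z hz').2
      (by simp [cw, h])
  have two : ∀ p ∈ insert v K, ∀ z ∈ S, z ∉ insert v K → ∀ z', z' ∉ insert v K → z' ≠ z →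
      ∀ r ∈ insert v (insert z K), (insert z' (insert z K)).card = K.card + 2 ∧
      Tr (cw D x l) (insert z' (insert z K)).card v (insert z' (insert z K))
        (a * cw D x l p z * cw D x l r z') := by
    intro p hp z _ hz z' hz' hne r hr
    have h1 := one p hp z hz
    have := card_insert_of_notMem (s := insert z K) (a := z') fun h =>
      (mem_insert.1 h).elim hne fun h => hz' (mem_insert_of_mem h)
    exact ⟨by omega, this ▸ h1.2.leaf z' r hr⟩
  have cross : ∀ (Y : V → Prop) (e : V × V), e ∈ Ed D S → ¬ (Y e.1 ↔ Y e.2) →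
      ∃ z ∈ S, ∃ q ∈ S, Y z ∧ ¬ Y q ∧ (e = (q, z) ∨ e = (z, q)) ∧ ((q, z) ∈ D ∨ (z, q) ∈ D) := by
    intro Y e he h
    rw [mem_Ed] at he
    by_cases h1 : Y e.1
    · exact ⟨_, he.2.1, _, he.2.2, h1, fun c => h (iff_of_true h1 c), Or.inr rfl, Or.inr he.1⟩
    · exact ⟨_, he.2.2, _, he.2.1, not_not.1 fun c => h (iff_of_false h1 c), h1, Or.inl rfl,
        Or.inl he.1⟩
  have star : ∀ y ∈ S, y ∉ insert v K → ∀ u ∈ S, (u, y) ∉ D := by
    intro y hy hy' u hu huy
    have hu' : u ∉ insert v K := fun h => up u h y hy hy' huy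
    obtain ⟨e, he, -, -, -, h1, -⟩ := hc (fun z => z ∉ insert v K ∧ ∃ z' ∈ S, z' ∉ insert v K ∧
      ((z, z') ∈ D ∨ (z', z) ∈ D)) y hy ⟨hy', u, hu, hu', Or.inr huy⟩ (by simp)
    obtain ⟨z₁, s₁, p, sp, ⟨n₁, z₂, s₂, n₂, a₂⟩, hp, -, a₁⟩ := cross (fun z => z ∉ insert v K ∧
      ∃ z' ∈ S, z' ∉ insert v K ∧ ((z, z') ∈ D ∨ (z', z) ∈ D)) e he h1
    have hp' : p ∈ insert v K := by
      by_contra h
      exact hp ⟨h, z₁, s₁, n₁, a₁⟩
    have ne : z₂ ≠ z₁ := by
      rintro rfl
      exact a₂.elim (fun h => hD _ _ h h) fun h => hD _ _ h h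
    let H : SimpleGraph V := SimpleGraph.fromRel fun a b => (a, b) ∈ D ∧
      (a ∈ S ∧ a ∉ insert v K ∧ a ≠ z₁) ∧ (b ∈ S ∧ b ∉ insert v K ∧ b ≠ z₁)
    have hH : ∀ a b, H.Adj a b → (a, b) ∈ D ∨ (b, a) ∈ D := fun a b h =>
      h.2.imp And.left And.left
    have hsup : ∀ {s s' : V} (P : H.Walk s s'), s ∈ S ∧ s ∉ insert v K ∧ s ≠ z₁ →
        ∀ y ∈ P.support, y ∈ S ∧ y ∉ insert v K ∧ y ≠ z₁ := by
      intro s s' P
      induction P with
      | nil => intro h y hy; rwa [show y = _ by simpa using hy]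
      | cons h P ih =>
        intro h' y hy
        rcases List.mem_cons.1 hy with rfl | hy
        · exact h'
        · exact ih (h.2.elim (fun h => h.2.2) fun h => h.2.1) y hy
    have piece : ∀ {s s' : V} (P : H.Walk s s') (u d : ℕ), P.IsPath →
        s ∈ S ∧ s ∉ insert v K ∧ s ≠ z₁ → ∀ r ∈ insert v (insert z₁ K), (r, s) ∈ D ∨ (s, r) ∈ D →
        u + d = P.length → d + 2 ≤ 3 * u →
        (P.darts.map fun e => cw D x l e.fst e.snd).prod = (x * l ^ 3) ^ u * (x / l) ^ d →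
        False := by
      intro s s' P u d hP hs r hr hrs h1 h2 h3
      obtain ⟨b1, b2⟩ := two p hp' z₁ s₁ n₁ s hs.2.1 hs.2.2 r hr
      obtain ⟨K', c1, c2, c3⟩ := Tr.walk P hP _ _ b2 (mem_insert_self _ _) fun y hy hy' => by
        have := hsup P hs y hy
        exact (mem_insert.1 hy').resolve_right fun c => (mem_insert.1 c).elim this.2.2
          fun c => this.2.1 (mem_insert_of_mem c)
      refine fin K' u (d + 2) _ (fun y hy => (c1 y hy).elim
        (fun h => ins (ins hKS s₁ n₁) hs.1 hs.2.1 h) fun h => ?_) (by omega) (by omega) h2 c3 ?_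
      · have := hsup P hs y h
        exact ins hKS this.1 this.2.1 (mem_insert_self _ _)
      · rw [h3]
        have c4 := lo _ _ a₁
        have c5 := lo _ _ hrs
        have c6 : 0 ≤ x / l := by positivity
        calc _ = a * (x / l) * (x / l) * ((x * l ^ 3) ^ u * (x / l) ^ d) := by ring
          _ ≤ _ := by have := c6.trans c4; gcongr
    have pair : ∀ p ∈ insert v K, ∀ z ∈ S, z ∉ insert v K → ∀ z' ∈ S, z' ∉ insert v K →
        (p, z) ∈ D ∨ (z, p) ∈ D → (z, z') ∉ D := by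
      intro p hp z hz nz z' hz' nz' h1 h2
      obtain ⟨b1, b2⟩ := two p hp z hz nz z' nz' (by rintro rfl; exact hD _ _ h2 h2) z (by simp)
      refine fin _ 1 1 _ (ins (ins hKS hz nz) hz' nz') b1 one_pos (by omega) b2 ?_
      have c4 := lo _ _ h1
      rw [show cw D x l z z' = x * l ^ 3 by simp [cw, h2]]
      calc _ = a * (x / l) * (x * l ^ 3) := by ring
        _ ≤ _ := by gcongr
    have t₂ : z₂ ∈ S ∧ z₂ ∉ insert v K ∧ z₂ ≠ z₁ := ⟨s₂, n₂, ne⟩
    obtain ⟨e, he, f, hf, hef, h2, h3⟩ := hc (H.Reachable z₂) z₂ s₂ (.refl _) fun ⟨P⟩ =>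
      (hsup P t₂ v P.end_mem_support).2.1 (mem_insert_self _ _)
    obtain ⟨z, sz, q, sq, ⟨P⟩, hq, hne, aq⟩ : ∃ z ∈ S, ∃ q ∈ S, H.Reachable z₂ z ∧
        ¬ H.Reachable z₂ q ∧ ¬ (z = z₂ ∧ q = z₁) ∧ ((q, z) ∈ D ∨ (z, q) ∈ D) := by
      obtain ⟨z, sz, q, sq, b1, b2, b3, b4⟩ := cross _ e he h2
      obtain ⟨z', sz', q', sq', b1', b2', b3', b4'⟩ := cross _ f hf h3
      by_cases c : z = z₂ ∧ q = z₁
      · refine ⟨z', sz', q', sq', b1', b2', fun c' => ?_, b4'⟩
        have d1 := (mem_Ed.1 he).1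
        have d2 := (mem_Ed.1 hf).1
        rw [c.1, c.2] at b3
        rw [c'.1, c'.2] at b3'
        rcases b3 with rfl | rfl <;> rcases b3' with rfl | rfl
        · exact hef rfl
        · exact hD _ _ d1 d2
        · exact hD _ _ d1 d2
        · exact hef rfl
      · exact ⟨z, sz, q, sq, b1, b2, c, b4⟩
    have tz := hsup P t₂ z P.end_mem_support
    have hq' : q ∈ insert v (insert z₁ K) := by
      by_contra h
      have tq : q ∈ S ∧ q ∉ insert v K ∧ q ≠ z₁ :=
        ⟨sq, fun c => h (insert_subset_insert _ (subset_insert _ _) c), fun c => h (by simp [c])⟩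
      refine hq (SimpleGraph.Reachable.trans ⟨P⟩ (SimpleGraph.Adj.reachable ⟨?_, ?_⟩))
      · rintro rfl
        exact hq ⟨P⟩
      · exact aq.symm.imp (fun h => ⟨h, tz, tq⟩) fun h => ⟨h, tq, tz⟩
    by_cases hz : z = z₂
    · subst hz
      have : q ∈ insert v K := by
        rw [insert_comm] at hq'
        exact (mem_insert.1 hq').resolve_left fun c => hne ⟨rfl, c⟩
      exact a₂.elim (pair p hp' z₁ s₁ n₁ z s₂ n₂ a₁) (pair q this z s₂ n₂ z₁ s₁ n₁ aq)
    · obtain ⟨u, d, b1, b2, b3⟩ := cw_list hD x l hH P.bypass.darts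
      rw [SimpleGraph.Walk.length_darts] at b1
      have b4 : P.bypass.length ≠ 0 := fun h => hz (SimpleGraph.Walk.eq_of_length_eq_zero h).symm
      by_cases b5 : d + 2 ≤ 3 * u
      · exact piece P.bypass u d P.bypass_isPath t₂ z₁ (by simp) a₂ b1 b5 b2
      · refine piece P.bypass.reverse d u P.bypass_isPath.reverse tz q hq' aq
          (by rw [SimpleGraph.Walk.length_reverse]; omega) (by omega) ?_
        rw [← b3, SimpleGraph.Walk.darts_reverse, List.map_reverse, List.prod_reverse, List.map_map]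
        rfl
  refine ⟨K, hKS, ?_, ⟨a, ha, hxa⟩, star⟩
  rintro rfl
  obtain ⟨y, hy, hyv⟩ : ∃ y ∈ S, y ≠ v := by
    by_contra h
    push Not at h
    exact hS (eq_singleton_iff_unique_mem.2 ⟨hv, h⟩)
  obtain ⟨e, he, f, hf, hef, h2, h3⟩ := hc (· = y) y hy rfl hyv.symm
  have : ∀ g ∈ Ed D S, ¬ (g.1 = y ↔ g.2 = y) → g = (y, v) := by
    intro g hg h
    rw [mem_Ed] at hg
    have b1 : g.2 = v := by
      by_contra b
      exact star g.2 hg.2.2 (by simpa using b) g.1 hg.2.1 hg.1
    have b2 : g.1 = y := by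
      by_contra b
      exact h (iff_of_false b fun c => hyv (c.symm.trans b1))
    exact Prod.ext b2 b1
  exact hef ((this e he h2).trans (this f hf h3).symm)

variable [Fintype V]

/-- a majorant of the weights of trees -/
noncomputable def M (c : V → V → ℝ) : ℕ → V → Finset V → ℝ
  | 0, _, K => if K = ∅ then 1 else 0
  | n + 1, v, K => (if K = ∅ then 1 else 0) + ∑ y, ∑ A, ∑ B,
      if A ∪ insert y B = K then M c n v A * c v y * M c n y B else 0

theorem M_nonneg {c : V → V → ℝ} (hc : ∀ a b, 0 ≤ c a b) (n : ℕ) : ∀ v K, 0 ≤ M c n v K := by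
  induction n with
  | zero => intro v K; simp only [M]; split_ifs <;> norm_num
  | succ n ih =>
    intro v K
    simp only [M]
    refine add_nonneg (by split_ifs <;> norm_num) (sum_nonneg fun y _ => sum_nonneg fun A _ =>
      sum_nonneg fun B _ => ?_)
    split_ifs
    · exact mul_nonneg (mul_nonneg (ih _ _) (hc _ _)) (ih _ _)
    · exact le_rfl

theorem Tr.le {c : V → V → ℝ} (hc : ∀ a b, 0 ≤ c a b) {n : ℕ} {v : V} {K : Finset V} {a : ℝ}
    (h : Tr c n v K a) : 0 ≤ a ∧ a ≤ M c n v K := by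
  have hn : ∀ n v K y A B, 0 ≤ if A ∪ insert y B = K then M c n v A * c v y * M c n y B else 0 := by
    intro n v K y A B
    split_ifs
    · exact mul_nonneg (mul_nonneg (M_nonneg hc _ _ _) (hc _ _)) (M_nonneg hc _ _ _)
    · exact le_rfl
  induction h with
  | nil n v =>
    refine ⟨zero_le_one, ?_⟩
    cases n with
    | zero => simp [M]
    | succ n =>
      simp only [M, if_true]
      exact le_add_of_nonneg_right (sum_nonneg fun y _ => sum_nonneg fun A _ =>
        sum_nonneg fun B _ => hn ..)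
  | @join n v y A B a b _ _ i1 i2 =>
    refine ⟨mul_nonneg (mul_nonneg i1.1 (hc _ _)) i2.1, ?_⟩
    simp only [M]
    refine le_add_of_nonneg_of_le (by split_ifs <;> norm_num) (le_trans ?_ (single_le_sum
      (fun y _ => sum_nonneg fun A _ => sum_nonneg fun B _ => hn ..) (mem_univ y)))
    refine le_trans ?_ (single_le_sum (fun A _ => sum_nonneg fun B _ => hn ..) (mem_univ A))
    refine le_trans ?_ (single_le_sum (fun B _ => hn ..) (mem_univ B))
    rw [if_pos rfl]
    exact mul_le_mul (mul_le_mul_of_nonneg_right i1.2 (hc _ _)) i2.2 i2.1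
      (mul_nonneg (M_nonneg hc _ _ _) (hc _ _))

theorem sum_M {c : V → V → ℝ} (hc : ∀ a b, 0 ≤ c a b) {σ : ℝ} (h0 : 0 ≤ σ) (h4 : σ ≤ 1 / 4)
    (hσ : ∀ v, ∑ y, c v y ≤ σ) (n : ℕ) : ∀ v, ∑ K, M c n v K ≤ 1 + 4 * σ := by
  induction n with
  | zero => intro v; simp [M, h0]
  | succ n ih =>
    intro v
    simp only [M, sum_add_distrib, sum_ite_eq', mem_univ, if_true]
    rw [sum_comm]
    refine add_le_add le_rfl (le_trans (sum_le_sum (g := fun y => 4 * c v y) fun y _ => ?_) ?_)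
    · rw [sum_comm]
      simp only [sum_comm (s := (univ : Finset (Finset V))) (f := fun K B =>
        if _ ∪ insert y B = K then M c n v _ * c v y * M c n y B else 0), sum_ite_eq, mem_univ,
        if_true, ← mul_sum, ← sum_mul]
      have h1 := ih v
      have h2 := ih y
      have h3 := hc v y
      have h5 : 0 ≤ ∑ K, M c n y K := sum_nonneg fun K _ => M_nonneg hc _ _ _
      calc _ ≤ 2 * c v y * 2 := by gcongr <;> linarith
        _ = _ := by ring
    · rw [← mul_sum]
      linarith [hσ v]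

end Pool.Agent.MP_cb5fda_co.Deg

end MrgPart2

-- ======== part 3: formerly Pool.Agent.MP_cb5fda_co.h21.Deg4
section MrgPart3

/-! The bound for the weights and the zero free region of degenerate graphs. -/

set_option autoImplicit false

namespace Pool.Agent.MP_cb5fda_co.Deg

open Finset Classical

variable {V : Type}

theorem card_con {U : Finset (V × V)} {S : Finset V} {v : V} (hv : v ∈ S)
    (hU : ∀ e ∈ U, e.1 ∈ S ∧ e.2 ∈ S) (hc : ∀ u ∈ S, Con U v u) : S.card ≤ U.card + 1 := by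
  have key : ∀ j, j + 1 ≤ S.card → ∃ T ⊆ S, v ∈ T ∧ T.card = j + 1 ∧ j ≤ (Ed U T).card := by
    intro j
    induction j with
    | zero => intro _; exact ⟨{v}, singleton_subset_iff.2 hv, by simp⟩
    | succ j ih =>
      intro hj
      obtain ⟨T, h1, h2, h3, h4⟩ := ih (by omega)
      obtain ⟨u, hu, hu'⟩ := exists_mem_notMem_of_card_lt_card (show T.card < S.card by omega)
      obtain ⟨e, he, h5⟩ : ∃ e ∈ U, ¬ (e.1 ∈ T ↔ e.2 ∈ T) := by
        by_contra h
        exact hu' ((hc u hu (· ∈ T) fun e he => not_not.1 fun c => h ⟨e, he, c⟩).1 h2)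
      obtain ⟨y, y1, y2, y3⟩ : ∃ y ∈ S, y ∉ T ∧ e.1 ∈ insert y T ∧ e.2 ∈ insert y T := by
        by_cases c : e.1 ∈ T
        · exact ⟨e.2, (hU e he).2, fun d => h5 (iff_of_true c d), by simp [c]⟩
        · exact ⟨e.1, (hU e he).1, c, by simp, mem_insert_of_mem
            (not_not.1 fun d => h5 (iff_of_false c d))⟩
      refine ⟨insert y T, insert_subset y1 h1, mem_insert_of_mem h2,
        by rw [card_insert_of_notMem y2, h3], ?_⟩
      have h6 : e ∉ Ed U T := fun c => h5 (iff_of_true (mem_Ed.1 c).2.1 (mem_Ed.1 c).2.2)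
      have := card_le_card (show insert e (Ed U T) ⊆ Ed U (insert y T) from
        insert_subset (mem_Ed.2 ⟨he, y3⟩) fun f hf => mem_Ed.2 ⟨(mem_Ed.1 hf).1,
          mem_insert_of_mem (mem_Ed.1 hf).2.1, mem_insert_of_mem (mem_Ed.1 hf).2.2⟩)
      rw [card_insert_of_notMem h6] at this
      omega
  have h0 := card_pos.2 ⟨v, hv⟩
  obtain ⟨T, -, -, -, h⟩ := key (S.card - 1) (by omega)
  have := card_le_card (show Ed U T ⊆ U from filter_subset _ _)
  omega

theorem psi {μ : ℝ} (hμ : 0 ≤ μ) (R : Finset V) : ∀ E : Finset (V × V),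
    ∑ U ∈ E.powerset, (if ∀ y ∈ R, ∃ e ∈ U, e.1 = y then μ ^ U.card else 0) ≤
      (1 + μ) ^ E.card * ∏ y ∈ R, μ * (E.filter fun e => e.1 = y).card := by
  induction R using Finset.induction_on with
  | empty =>
    intro E
    have := prod_one_add (f := fun _ => μ) E
    simp only [prod_const] at this
    simp [this]
  | insert y R hy ih =>
    intro E
    rw [prod_insert hy]
    calc _ ≤ ∑ U ∈ E.powerset, ∑ e ∈ E.filter fun e => e.1 = y, (if e ∈ U then
          μ * if ∀ y ∈ R, ∃ f ∈ U.erase e, f.1 = y then μ ^ (U.erase e).card else 0 else 0) := by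
          refine sum_le_sum fun U hU => ?_
          have hn : ∀ e ∈ E.filter fun e => e.1 = y, 0 ≤ (if e ∈ U then μ *
              if ∀ y ∈ R, ∃ f ∈ U.erase e, f.1 = y then μ ^ (U.erase e).card else 0 else 0) :=
            fun e _ => by split_ifs <;> positivity
          split_ifs with h
          · obtain ⟨e, he, hey⟩ := h y (mem_insert_self _ _)
            refine le_trans ?_ (single_le_sum hn (mem_filter.2 ⟨mem_powerset.1 hU he, hey⟩))
            rw [if_pos he, if_pos, ← card_erase_add_one he, pow_succ']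
            intro u hu
            obtain ⟨f, hf, hfu⟩ := h u (mem_insert_of_mem hu)
            exact ⟨f, mem_erase.2 ⟨fun c => hy (by rw [← hey, ← c, hfu]; exact hu), hf⟩, hfu⟩
          · exact sum_nonneg hn
      _ ≤ ∑ e ∈ E.filter fun e => e.1 = y,
          μ * ((1 + μ) ^ E.card * ∏ y ∈ R, μ * (E.filter fun e => e.1 = y).card) := by
          rw [sum_comm]
          refine sum_le_sum fun e he => ?_
          have he' := (mem_filter.1 he).1
          conv_lhs => rw [← insert_erase he', sum_powerset_insert (notMem_erase _ _)]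
          rw [sum_eq_zero fun U hU => if_neg fun c => notMem_erase _ _ (mem_powerset.1 hU c),
            zero_add, sum_congr rfl fun U hU => by
              rw [if_pos (mem_insert_self _ _),
                erase_insert fun c => notMem_erase _ _ (mem_powerset.1 hU c)], ← mul_sum]
          refine mul_le_mul_of_nonneg_left ((ih _).trans ?_) hμ
          gcongr
          · linarith
          · exact erase_subset _ _
          · exact erase_subset _ _
      _ = _ := by
          rw [sum_const, nsmul_eq_mul]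
          ring

variable [Fintype V]

theorem term_le {D : Finset (V × V)} {k : ℕ} (hk0 : 0 < k)
    (hk : ∀ y, (univ.filter fun u => (y, u) ∈ D).card ≤ k) {t : ℂ} (ht : 2 * ‖t‖ * k ≤ 1)
    {S K : Finset V} {v : V} (hv : v ∈ S) (hK : K ⊆ S.erase v)
    (star : ∀ y ∈ S, y ∉ insert v K → ∀ u ∈ S, (u, y) ∉ D) :
    ‖w D t v S‖ * 2 ^ (S.card - 1) ≤ 3 * (12 * ‖t‖ * k) ^ K.card * ∏ y ∈ S \ insert v K,
      12 * ‖t‖ * ((insert v K).filter fun u => (y, u) ∈ D).card := by
  have hk1 : (0 : ℝ) < k := by exact_mod_cast hk0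
  set R := S \ insert v K with hR
  have hA : insert v K ⊆ S := insert_subset hv (hK.trans (erase_subset _ _))
  have hS : S.card = K.card + R.card + 1 := by
    have h1 := card_sdiff_add_card_eq_card hA
    rw [card_insert_of_notMem fun c => notMem_erase _ _ (hK c), ← hR] at h1
    omega
  have h1 : ‖w D t v S‖ ≤ (2 * ‖t‖ * k) ^ (K.card + R.card) * ∑ U ∈ (Ed D S).powerset,
      (if ∀ y ∈ R, ∃ e ∈ U, e.1 = y then (k : ℝ)⁻¹ ^ U.card else 0) := by
    rw [mul_sum]
    refine (norm_sum_le _ _).trans (sum_le_sum fun U hU => ?_)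
    rw [mem_powerset] at hU
    by_cases h : ∀ u ∈ S, Con U v u
    · have h2 := card_con hv (fun e he => (mem_Ed.1 (hU he)).2) h
      rw [if_pos h, if_pos]
      · refine (W_norm D U t).trans ?_
        rw [show 2 * ‖t‖ = 2 * ‖t‖ * k * (k : ℝ)⁻¹ by field_simp, mul_pow,
          show 2 * ‖t‖ * k * (k : ℝ)⁻¹ * k = 2 * ‖t‖ * k by field_simp]
        exact mul_le_mul_of_nonneg_right (pow_le_pow_of_le_one (by positivity) ht (by omega))
          (by positivity)
      · intro y hy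
        rw [hR, mem_sdiff] at hy
        by_contra c
        refine hy.2 (((h y hy.1 (· = y) fun e he => iff_of_false (fun d => c ⟨e, he, d⟩) fun d =>
          ?_).2 rfl) ▸ mem_insert_self _ _)
        have := mem_Ed.1 (hU he)
        exact star y hy.1 hy.2 e.1 this.2.1 (d ▸ this.1)
    · rw [if_neg h, norm_zero]
      split_ifs <;> positivity
  have h2 : (Ed D S).card ≤ S.card * k := by
    rw [card_eq_sum_card_fiberwise (f := Prod.fst) (t := S) fun e he => (mem_Ed.1 he).2.1]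
    refine (sum_le_card_nsmul _ _ k fun y _ => le_trans ?_ (hk y)).trans (by simp)
    refine card_le_card_of_injOn Prod.snd (fun e he => ?_) fun e he f hf c => ?_
    · have := mem_filter.1 (mem_coe.1 he)
      exact mem_coe.2 (mem_filter.2 ⟨mem_univ _, this.2 ▸ (mem_Ed.1 this.1).1⟩)
    · exact Prod.ext ((mem_filter.1 (mem_coe.1 he)).2.trans (mem_filter.1 (mem_coe.1 hf)).2.symm) c
  have h3 : (1 + (k : ℝ)⁻¹) ^ (Ed D S).card ≤ 3 ^ (K.card + R.card + 1) := by
    rw [← hS]
    refine (pow_le_pow_right₀ (by simp) h2).trans ?_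
    rw [mul_comm, pow_mul]
    refine pow_le_pow_left₀ (by positivity) ?_ _
    exact (Real.one_add_inv_pow_le_exp (n := k)).trans (Real.exp_one_lt_three).le
  have h4 : ∏ y ∈ R, (k : ℝ)⁻¹ * ((Ed D S).filter fun e => e.1 = y).card ≤
      ∏ y ∈ R, (k : ℝ)⁻¹ * ((insert v K).filter fun u => (y, u) ∈ D).card := by
    refine prod_le_prod (fun _ _ => by positivity) fun y hy => mul_le_mul_of_nonneg_left
      (Nat.cast_le.2 (card_le_card_of_injOn Prod.snd (fun e he => ?_) fun e he f hf c => ?_))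
      (by positivity)
    · have a := mem_filter.1 (mem_coe.1 he)
      have b := mem_Ed.1 a.1
      exact mem_coe.2 (mem_filter.2 ⟨not_not.1 fun c => star _ b.2.2 c _ b.2.1 b.1, a.2 ▸ b.1⟩)
    · exact Prod.ext ((mem_filter.1 (mem_coe.1 he)).2.trans (mem_filter.1 (mem_coe.1 hf)).2.symm) c
  have h5 := (psi (by positivity) R (Ed D S)).trans (mul_le_mul h3 h4
    (prod_nonneg fun _ _ => by positivity) (by positivity))
  refine (mul_le_mul_of_nonneg_right (h1.trans (mul_le_mul_of_nonneg_left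
    (by convert h5) (by positivity)))
    (by positivity)).trans (le_of_eq ?_)
  rw [hS, Nat.add_sub_cancel, prod_mul_distrib, prod_mul_distrib, prod_const, prod_const]
  have : (12 * ‖t‖) ^ R.card = (2 * ‖t‖ * k) ^ R.card * 3 ^ R.card * (k : ℝ)⁻¹ ^ R.card *
      2 ^ R.card := by
    rw [← mul_pow, ← mul_pow, ← mul_pow]
    congr 1
    field_simp
    ring
  rw [this, show 12 * ‖t‖ * k = 2 * ‖t‖ * k * 3 * 2 by ring, mul_pow _ 2, mul_pow _ 3]
  ring

theorem cw_sum {D : Finset (V × V)} {k Δ : ℕ}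
    (hk : ∀ y, (univ.filter fun u => (y, u) ∈ D).card ≤ k)
    (hΔ : ∀ u, (univ.filter fun y => (y, u) ∈ D).card ≤ Δ) {x l : ℝ} (hx : 0 ≤ x) (hl : 0 ≤ l)
    (a : V) : ∑ y, cw D x l a y ≤ x * (k * l ^ 3 + Δ / l) :=
  calc _ ≤ ∑ y, ((if (a, y) ∈ D then x * l ^ 3 else 0) + if (y, a) ∈ D then x / l else 0) :=
        sum_le_sum fun y _ => by unfold cw; split_ifs <;> simp; positivity
    _ ≤ k * (x * l ^ 3) + Δ * (x / l) := by
        rw [sum_add_distrib, ← sum_filter, ← sum_filter, sum_const, sum_const, nsmul_eq_mul,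
          nsmul_eq_mul]
        gcongr
        · exact hk a
        · exact hΔ a
    _ = _ := by ring

theorem fringe {D : Finset (V × V)} {Δ : ℕ}
    (hΔ : ∀ u, (univ.filter fun y => (y, u) ∈ D).card ≤ Δ) {b : ℝ} (hb : 0 ≤ b) (A : Finset V) :
    ∑ R : Finset V, ∏ y ∈ R, b * (A.filter fun u => (y, u) ∈ D).card ≤
      Real.exp (b * Δ) ^ A.card := by
  rw [← powerset_univ, ← prod_one_add]
  have a1 : ∑ y, (A.filter fun u => (y, u) ∈ D).card ≤ A.card * Δ := by
    simp only [card_filter]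
    rw [sum_comm]
    exact sum_le_card_nsmul _ _ Δ fun u _ => by rw [← card_filter]; exact hΔ u
  refine (Real.prod_one_add_le_exp_sum _ fun _ => by positivity).trans ?_
  rw [← Real.exp_nat_mul, ← mul_sum, ← Nat.cast_sum, mul_left_comm, ← Nat.cast_mul]
  gcongr

theorem cut_of_ne {D : Finset (V × V)} (hD : ∀ e ∈ D, e.1 ≠ e.2) {t : ℂ} {S : Finset V} {v : V}
    (hw : w D t v S ≠ 0) (Y : V → Prop) (a : V) (ha : a ∈ S) (y1 : Y a) (y2 : ¬ Y v) :
    ∃ e ∈ Ed D S, ∃ f ∈ Ed D S, e ≠ f ∧ ¬ (Y e.1 ↔ Y e.2) ∧ ¬ (Y f.1 ↔ Y f.2) := by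
  obtain ⟨U, hU, h0⟩ := exists_ne_zero_of_sum_ne_zero hw
  rw [mem_powerset] at hU
  rw [ite_ne_right_iff] at h0
  obtain ⟨f, hf, f1⟩ : ∃ f ∈ U, ¬ (Y f.1 ↔ Y f.2) := by
    by_contra c
    exact y2 ((h0.1 a ha Y fun e he => not_not.1 fun d => c ⟨e, he, d⟩).2 y1)
  by_contra c
  exact h0.2 (W_cut hD t hU hf f1 fun e he d => not_not.1 fun b => c ⟨e, he, f, hU hf, d, b, f1⟩)

omit [Fintype V] in
theorem loopless {D : Finset (V × V)} (hD : ∀ a b, (a, b) ∈ D → (b, a) ∉ D) :
    ∀ e ∈ D, e.1 ≠ e.2 := by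
  rintro ⟨a, b⟩ he (rfl : a = b)
  exact hD _ _ he he

theorem sum_le_half {D : Finset (V × V)} (hD : ∀ a b, (a, b) ∈ D → (b, a) ∉ D) {k Δ : ℕ}
    (hk0 : 0 < k) (hk : ∀ y, (univ.filter fun u => (y, u) ∈ D).card ≤ k)
    (hΔ : ∀ u, (univ.filter fun y => (y, u) ∈ D).card ≤ Δ) {t : ℂ} (ht : 2 * ‖t‖ * k ≤ 1)
    {l E x : ℝ} (hl : 1 ≤ l) (hE : E = Real.exp (12 * ‖t‖ * Δ)) (hx : x = 12 * ‖t‖ * k * E)
    (h : 12 * E * (x * (k * l ^ 3 + Δ / l)) ≤ 1 / 2) (v : V) :
    ∑ S : Finset V, (if v ∈ S ∧ S ≠ {v} then ‖w D t v S‖ * 2 ^ (S.card - 1) else 0) ≤ 1 / 2 := by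
  have hE1 : 1 ≤ E := hE ▸ Real.one_le_exp (by positivity)
  have hx0 : 0 ≤ x := by rw [hx]; positivity
  have hc : ∀ a b, 0 ≤ cw D x l a b := fun a b => by unfold cw; split_ifs <;> positivity
  have hσ0 : 0 ≤ x * (k * l ^ 3 + Δ / l) := by positivity
  have hM := sum_M hc hσ0 (by nlinarith) (cw_sum hk hΔ hx0 (by positivity)) (Fintype.card V) v
  obtain ⟨g, hg⟩ : ∃ g : Finset V → Finset V → ℝ, ∀ K R, g K R =
    if K ≠ ∅ ∧ x ^ K.card ≤ M (cw D x l) (Fintype.card V) v K then 3 * (12 * ‖t‖ * k) ^ K.card *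
      ∏ y ∈ R, 12 * ‖t‖ * ((insert v K).filter fun u => (y, u) ∈ D).card else 0 := ⟨_, fun _ _ => rfl⟩
  have g1 : ∀ S K R, 0 ≤ if insert v K ∪ R = S then g K R else 0 := fun S K R => by
    rw [hg]
    split_ifs <;> positivity
  have s1 : ∀ S : Finset V, (if v ∈ S ∧ S ≠ {v} then ‖w D t v S‖ * 2 ^ (S.card - 1) else 0) ≤
      ∑ K, ∑ R, if insert v K ∪ R = S then g K R else 0 := by
    intro S
    by_cases hw : (v ∈ S ∧ S ≠ {v}) ∧ w D t v S ≠ 0
    · obtain ⟨K, k1, k2, ⟨a, k3, k4⟩, k5⟩ := skel hD hx0 hl hw.1.1 hw.1.2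
        (cut_of_ne (loopless hD) hw.2)
      refine le_trans ?_ (single_le_sum (fun K _ => sum_nonneg fun R _ => g1 S K R) (mem_univ K))
      refine le_trans ?_ (single_le_sum (fun R _ => g1 S K R) (mem_univ (S \ insert v K)))
      rw [if_pos hw.1, if_pos (union_sdiff_of_subset
        (insert_subset hw.1.1 (k1.trans (erase_subset _ _)))), hg,
        if_pos ⟨k2, k4.trans ((k3.mono (card_le_univ K)).le hc).2⟩]
      exact term_le hk0 hk ht hw.1.1 k1 k5
    · refine le_trans (le_of_eq ?_) (sum_nonneg fun K _ => sum_nonneg fun R _ => g1 S K R)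
      split_ifs with c
      · rw [not_not.1 fun d => hw ⟨c, d⟩, norm_zero, zero_mul]
      · rfl
  have s2 : ∀ K, ∑ R, g K R ≤ 3 * E * M (cw D x l) (Fintype.card V) v K := by
    intro K
    simp only [hg]
    split_ifs with c
    · have a2 := (fringe hΔ (b := 12 * ‖t‖) (by positivity) (insert v K)).trans
        (pow_le_pow_right₀ (hE ▸ hE1) (card_insert_le _ _))
      rw [← mul_sum]
      calc _ ≤ 3 * (12 * ‖t‖ * k) ^ K.card * E ^ (K.card + 1) :=
            mul_le_mul_of_nonneg_left (hE ▸ a2) (by positivity)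
        _ = 3 * E * x ^ K.card := by rw [hx, mul_pow _ E]; ring
        _ ≤ _ := mul_le_mul_of_nonneg_left c.2 (by positivity)
    · rw [sum_const_zero]
      have := M_nonneg hc (Fintype.card V) v K
      positivity
  refine (sum_le_sum fun S _ => s1 S).trans ?_
  rw [sum_comm, sum_congr rfl fun K _ => (sum_comm.trans (by
    simp only [sum_ite_eq, mem_univ, if_true]) : _ = ∑ R, g K R),
    ← add_sum_erase _ _ (mem_univ ∅), sum_eq_zero (by simp [hg]), zero_add]
  refine (sum_le_sum fun K _ => s2 K).trans ?_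
  rw [← add_sum_erase _ _ (mem_univ ∅)] at hM
  have := ((Tr.nil (c := cw D x l) (Fintype.card V) v).le hc).2
  rw [← mul_sum]
  refine (mul_le_mul_of_nonneg_left (show _ ≤ 4 * (x * (k * l ^ 3 + Δ / l)) by linarith)
    (by positivity)).trans ?_
  linarith

theorem orient (G : SimpleGraph V) {k : ℕ}
    (h : ∀ S : Finset V, S.Nonempty → ∃ v ∈ S, (S.filter (G.Adj v)).card ≤ k) (S : Finset V) :
    ∃ D : Finset (V × V), (∀ e ∈ D, G.Adj e.1 e.2 ∧ e.1 ∈ S ∧ e.2 ∈ S) ∧
      (∀ a ∈ S, ∀ b ∈ S, G.Adj a b → (a, b) ∈ D ∨ (b, a) ∈ D) ∧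
      (∀ a b, (a, b) ∈ D → (b, a) ∉ D) ∧ ∀ y, (univ.filter fun u => (y, u) ∈ D).card ≤ k := by
  induction S using Finset.strongInduction with
  | H S ih =>
    rcases S.eq_empty_or_nonempty with rfl | hS
    · exact ⟨∅, by simp⟩
    obtain ⟨v, hv, hk⟩ := h S hS
    obtain ⟨D, h1, h2, h3, h4⟩ := ih _ (erase_ssubset hv)
    have m : ∀ a b, (a, b) ∈ D ∪ (S.filter (G.Adj v)).image (Prod.mk v) ↔
        (a, b) ∈ D ∨ a = v ∧ b ∈ S ∧ G.Adj v b := by
      intro a b
      simp [eq_comm, and_comm, and_assoc]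
    have n : ∀ a b, (a, b) ∈ D → a ≠ v ∧ b ≠ v := fun a b c =>
      ⟨(mem_erase.1 (h1 _ c).2.1).1, (mem_erase.1 (h1 _ c).2.2).1⟩
    refine ⟨D ∪ (S.filter (G.Adj v)).image (Prod.mk v), fun ⟨a, b⟩ he => ?_,
      fun a ha b hb hab => ?_, fun a b c d => ?_, fun y => ?_⟩
    · rcases (m a b).1 he with c | ⟨rfl, c, d⟩
      · exact ⟨(h1 _ c).1, mem_of_mem_erase (h1 _ c).2.1, mem_of_mem_erase (h1 _ c).2.2⟩
      · exact ⟨d, hv, c⟩
    · rw [m, m]
      by_cases c : a = v
      · exact Or.inl (Or.inr ⟨c, hb, c ▸ hab⟩)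
      by_cases d : b = v
      · exact Or.inr (Or.inr ⟨d, ha, d ▸ hab.symm⟩)
      exact (h2 a (mem_erase.2 ⟨c, ha⟩) b (mem_erase.2 ⟨d, hb⟩) hab).imp Or.inl Or.inl
    · rcases (m a b).1 c with c | c <;> rcases (m b a).1 d with d | d
      · exact h3 _ _ c d
      · exact (n _ _ c).2 d.1
      · exact (n _ _ d).2 c.1
      · exact c.2.2.ne' d.1
    · by_cases c : y = v
      · refine le_trans (card_le_card fun u hu => ?_) hk
        rcases (m _ _).1 (mem_filter.1 hu).2 with d | d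
        · exact ((n _ _ d).1 c).elim
        · exact mem_filter.2 d.2
      · refine le_trans (card_le_card fun u hu => ?_) (h4 y)
        exact mem_filter.2 ⟨mem_univ _, ((m _ _).1 (mem_filter.1 hu).2).resolve_right
          fun d => c d.1⟩

theorem main (G : SimpleGraph V) {k Δ : ℕ} (hk : 1 ≤ k) (hΔ : 2 * k ^ 5 ≤ Δ)
    (h : ∀ S : Finset V, S.Nonempty → ∃ v ∈ S, (S.filter (G.Adj v)).card ≤ k)
    (hG : ∀ v, (univ.filter (G.Adj v)).card ≤ Δ) {P : Polynomial ℂ}
    (hP : ∀ n : ℕ, P.eval (n : ℂ) = (Nat.card (G.Coloring (Fin n)) : ℂ)) {z : ℂ}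
    (h0 : P.eval z = 0) : ‖z‖ ≤ 10000 * Δ / Real.log (Δ / k ^ 5) := by
  by_contra hz
  rw [not_le] at hz
  obtain ⟨D, h1, h2, h3, h4⟩ := orient G h univ
  have k1 : (1 : ℝ) ≤ k := by exact_mod_cast hk
  have k5 : (k : ℝ) ≤ k ^ 5 := le_self_pow₀ k1 (by norm_num)
  have d1 : (2 : ℝ) * k ^ 5 ≤ Δ := by exact_mod_cast hΔ
  have d2 : (2 : ℝ) ≤ Δ / k ^ 5 := by rwa [le_div_iff₀ (by positivity)]
  obtain ⟨L, hL⟩ : ∃ L, L = Real.log (Δ / k ^ 5) := ⟨_, rfl⟩
  rw [← hL] at hz
  have L0 : 0 < L := hL ▸ Real.log_pos (by linarith)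
  have L1 : Real.exp L = Δ / k ^ 5 := hL ▸ Real.exp_log (by linarith)
  have L2 : L * k ≤ Δ := by
    have := Real.add_one_le_exp L
    rw [L1, le_div_iff₀ (by positivity)] at this
    nlinarith
  rw [div_lt_iff₀ L0] at hz
  have z1 : 10000 * k ≤ ‖z‖ := le_of_mul_le_mul_right (by nlinarith) L0
  have z2 : ‖z‖ / 2 ≤ ‖z - 1‖ := by
    have := norm_sub_norm_le z 1
    rw [norm_one] at this
    linarith
  have z3 : z - 1 ≠ 0 := norm_pos_iff.1 (by linarith)
  have t1 : ‖-(z - 1)⁻¹‖ * ‖z‖ ≤ 2 := by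
    rw [norm_neg, norm_inv, inv_mul_le_iff₀ (by linarith)]
    linarith
  refine (K_ne (loopless h3) _ (fun v => ?_) univ).1 (K_univ z3 (whitney (fun e he => (h1 e he).1)
    (fun a b => h2 a (mem_univ _) b (mem_univ _)) hP (norm_pos_iff.1 (by linarith)) h0))
  generalize -(z - 1)⁻¹ = t at t1
  have t0 := norm_nonneg t
  have B1 : 12 * ‖t‖ * Δ ≤ L / 400 := by nlinarith
  have l1 : 1 ≤ Real.exp (L / 4) := Real.one_le_exp (by positivity)
  refine sum_le_half (Δ := Δ) h3 hk h4 (fun u => le_trans (card_le_card fun y hy =>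
    mem_filter.2 ⟨mem_univ _, (h1 _ (mem_filter.1 hy).2).1.symm⟩) (hG u)) (by nlinarith)
    (l := Real.exp (L / 4) * k) (by nlinarith) rfl rfl ?_ v
  have e1 : Real.exp (L / 4) ^ 4 * k ^ 5 = Δ := by
    rw [← Real.exp_nat_mul, show ((4 : ℕ) : ℝ) * (L / 4) = L by push_cast; ring, L1]
    field_simp
  have e2 : Real.exp (12 * ‖t‖ * Δ) ^ 2 * (L / 8) ≤ Real.exp (L / 4) := by
    have := Real.add_one_le_exp (L / 8)
    calc _ ≤ Real.exp (L / 16) ^ 2 * Real.exp (L / 8) := by gcongr <;> linarith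
      _ = _ := by rw [← Real.exp_nat_mul, ← Real.exp_add]; congr 1; push_cast; ring
  generalize Real.exp (12 * ‖t‖ * Δ) = E at e2 ⊢
  generalize Real.exp (L / 4) = y at l1 e1 e2 ⊢
  have e3 : 12 * E * (12 * ‖t‖ * k * E * (k * (y * k) ^ 3 + Δ / (y * k))) =
      24 * (E ^ 2 * (12 * ‖t‖ * Δ)) / y := by
    rw [← e1]
    field_simp
    ring
  rw [e3, div_le_iff₀ (by linarith)]
  nlinarith [mul_le_mul_of_nonneg_left B1 (sq_nonneg E)]

end Pool.Agent.MP_cb5fda_co.Deg

end MrgPart3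

-- ======== part 4: formerly Pool.Agent.MP_cb5fda_co.h21.Deg5
section MrgPart4

/-! Walks with memory that discover a spanning tree. -/

set_option autoImplicit false

namespace Pool.Agent.MP_cb5fda_co.Deg

open Finset Classical

variable {V : Type}

/-- position, memory, and the recorded arc -/
abbrev St (V : Type) : Type := V × V × Option (V × V)

/-- the cost of a step along an arc -/
noncomputable def cd (D : Finset (V × V)) (β ρ : ℝ) (a b : V) : ℝ :=
  if (a, b) ∈ D then β * ρ else if (b, a) ∈ D then β else 0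

/-- the cost of a move -/
noncomputable def cs (D : Finset (V × V)) (α β ρ : ℝ) (s s' : St V) : ℝ :=
  ((if s'.2.1 = s.2.1 then 1 else 0) + if s'.2.1 = s.1 then 1 else 0) *
    ((if s'.2.2 = none then 1 else 0) + (if s'.2.2 = some (s.1, s'.1) then 1 else 0) +
      if s'.2.2 = some (s'.1, s.1) then 1 else 0) *
    (cd D β ρ s.1 s'.1 + if s'.1 = s'.2.1 then α else 0)

/-- the recorded arcs -/
noncomputable def lab (K : Finset (St V)) : Finset (V × V) := K.biUnion fun s => s.2.2.toFinset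

/-- the first `m` ancestors -/
noncomputable def pa (p : V → V) (y : V) : ℕ → Finset V
  | 0 => ∅
  | m + 1 => insert (p^[m] y) (pa p y m)

/-- the number of the first `m` ancestors with a property -/
noncomputable def cnt (p : V → V) (Q : V → Prop) (y : V) : ℕ → ℕ
  | 0 => 0
  | m + 1 => cnt p Q y m + if Q (p^[m] y) then 1 else 0

theorem mem_pa {p : V → V} {y z : V} {m : ℕ} : z ∈ pa p y m ↔ ∃ l < m, p^[l] y = z := by
  induction m with
  | zero => simp [pa]
  | succ m ih =>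
    rw [pa, mem_insert, ih]
    constructor
    · rintro (rfl | ⟨l, h, rfl⟩)
      · exact ⟨m, by omega, rfl⟩
      · exact ⟨l, by omega, rfl⟩
    · rintro ⟨l, h, rfl⟩
      by_cases c : l = m
      · exact Or.inl (by rw [c])
      · exact Or.inr ⟨l, by omega, rfl⟩

theorem cnt_compl (p : V → V) (Q : V → Prop) (y : V) (m : ℕ) :
    cnt p Q y m + cnt p (fun z => ¬ Q z) y m = m := by
  induction m with
  | zero => rfl
  | succ m ih =>
    simp only [cnt]
    by_cases c : Q (p^[m] y) <;> simp only [c, not_true, not_false_iff, if_true, if_false] <;> omega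

theorem cnt_add (p : V → V) (Q : V → Prop) (y : V) (m j : ℕ) :
    cnt p Q y (m + j) = cnt p Q y m + cnt p Q (p^[m] y) j := by
  induction j with
  | zero => rfl
  | succ j ih =>
    rw [← add_assoc, cnt, cnt, ih, ← Function.iterate_add_apply, add_comm j m, add_assoc]

theorem cnt_zero {p : V → V} {Q : V → Prop} {y : V} {m : ℕ} (h : cnt p Q y m = 0) :
    ∀ l < m, ¬ Q (p^[l] y) := by
  induction m with
  | zero => simp
  | succ m ih =>
    intro l hl c
    rw [cnt] at h
    by_cases e : l = m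
    · subst e
      rw [if_pos c] at h
      omega
    · exact ih (by omega) l (by omega) c

theorem cd_nonneg (D : Finset (V × V)) {β ρ : ℝ} (hβ : 0 ≤ β) (hρ : 1 ≤ ρ) (a b : V) :
    0 ≤ cd D β ρ a b := by
  have : 0 ≤ ρ := by linarith
  unfold cd
  split_ifs <;> positivity

theorem cs_nonneg (D : Finset (V × V)) {α β ρ : ℝ} (hα : 0 ≤ α) (hβ : 0 ≤ β) (hρ : 1 ≤ ρ)
    (s s' : St V) : 0 ≤ cs D α β ρ s s' := by
  have := cd_nonneg D hβ hρ s.1 s'.1
  unfold cs
  positivity

/-- the tree arcs at the vertices of `Y` are recorded at cost at least `r`, and the walk can go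
on from `b` with memory `μ` -/
def Pt (D : Finset (V × V)) (α β ρ : ℝ) (v : V) (p : V → V) (n : ℕ) (Y : Finset V) (r : ℝ)
    (b μ : V) : Prop :=
  ∃ K a, Tr (cs D α β ρ) n (v, v, none) K a ∧ r ≤ a ∧ lab K = Y.image (fun y => (y, p y)) ∧
    (∀ y ∈ Y, ∃ s, (s = (v, v, none) ∨ s ∈ K) ∧ s.1 = y) ∧
    ∃ s, (s = (v, v, none) ∨ s ∈ K) ∧ s.1 = b ∧ (s.2.1 = μ ∨ b = μ)

theorem Tr.leaf' {W : Type} {c : W → W → ℝ} {n : ℕ} {v : W} {K : Finset W} {a : ℝ}
    (h : Tr c n v K a) (z : W) {p : W} (hp : p = v ∨ p ∈ K) :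
    ∃ K', Tr c (n + 1) v K' (a * c p z) ∧ ∀ s, s ∈ K' ↔ s = z ∨ s ∈ K :=
  ⟨_, h.leaf z p (mem_insert.2 hp), fun _ => mem_insert⟩

theorem mem_lab {K : Finset (St V)} {e : V × V} : e ∈ lab K ↔ ∃ s ∈ K, s.2.2 = some e := by
  simp [lab]

section

variable {D : Finset (V × V)} {α β ρ : ℝ} {v : V} {p : V → V}

theorem Pt.jump {n : ℕ} {Y : Finset V} {r : ℝ} {b μ : V} (h : Pt D α β ρ v p n Y r b μ) {y : V}
    (hy : y ∈ insert v Y) : Pt D α β ρ v p n Y r y y := by
  obtain ⟨K, a, h1, h2, h3, h4, -⟩ := h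
  refine ⟨K, a, h1, h2, h3, h4, ?_⟩
  rcases mem_insert.1 hy with rfl | hy
  · exact ⟨_, Or.inl rfl, rfl, Or.inr rfl⟩
  · obtain ⟨s, s1, s2⟩ := h4 y hy
    exact ⟨s, s1, s2, Or.inr rfl⟩

theorem Pt.weak {n n' : ℕ} {Y : Finset V} {r r' : ℝ} {b μ : V} (h : Pt D α β ρ v p n Y r b μ)
    (hn : n ≤ n') (hr : r' ≤ r) : Pt D α β ρ v p n' Y r' b μ := by
  obtain ⟨K, a, h1, h2, h3⟩ := h
  exact ⟨K, a, h1.mono hn, hr.trans h2, h3⟩

variable [Fintype V]

theorem Pt.step (hα : 0 ≤ α) (hβ : 0 ≤ β) (hρ : 1 ≤ ρ) {n : ℕ} {Y Y' : Finset V} {r : ℝ}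
    {a μ : V} (h : Pt D α β ρ v p n Y r a μ) (b : V)
    (hl : Y' = Y ∨ (p a = b ∧ Y' = insert a Y) ∨ (p b = a ∧ Y' = insert b Y)) {u : ℝ} (h0 : 0 ≤ u)
    (hu : u ≤ cd D β ρ a b + if b = μ then α else 0) : Pt D α β ρ v p (n + 1) Y' (r * u) b μ := by
  obtain ⟨K, t, h1, h2, h3, h4, s, s1, s2, s3⟩ := h
  obtain ⟨l, l1, l2, l3⟩ : ∃ l : Option (V × V), (l = none ∨ l = some (a, b) ∨ l = some (b, a)) ∧
      l.toFinset ∪ Y.image (fun y => (y, p y)) = Y'.image (fun y => (y, p y)) ∧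
      ∀ y ∈ Y', y ∈ Y ∨ y = a ∨ y = b := by
    rcases hl with rfl | ⟨c, rfl⟩ | ⟨c, rfl⟩
    · exact ⟨none, Or.inl rfl, by simp, fun y hy => Or.inl hy⟩
    · exact ⟨some (a, b), by simp, by simp [c], fun y hy => (mem_insert.1 hy).elim
        (fun c => Or.inr (Or.inl c)) Or.inl⟩
    · exact ⟨some (b, a), by simp, by simp [c], fun y hy => (mem_insert.1 hy).elim
        (fun c => Or.inr (Or.inr c)) Or.inl⟩
  obtain ⟨K', k1, k2⟩ := h1.leaf' (b, μ, l) s1
  have sub : ∀ s, s = (v, v, none) ∨ s ∈ K → s = (v, v, none) ∨ s ∈ K' := fun s hs =>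
    hs.imp id fun c => (k2 s).2 (Or.inr c)
  have new : (b, μ, l) = (v, v, none) ∨ (b, μ, l) ∈ K' := Or.inr ((k2 _).2 (Or.inl rfl))
  refine ⟨K', _, k1, ?_, ?_, fun y hy => ?_, _, new, rfl, Or.inl rfl⟩
  · refine mul_le_mul h2 (hu.trans ?_) h0 (h1.le (cs_nonneg D hα hβ hρ)).1
    unfold cs
    simp only [s2]
    refine le_mul_of_one_le_left (h0.trans hu) (one_le_mul_of_one_le_of_one_le ?_ ?_)
    · rcases s3 with c | c
      · rw [if_pos c.symm]
        split_ifs <;> norm_num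
      · rw [if_pos c.symm]
        split_ifs <;> norm_num
    · rcases l1 with c | c | c <;> rw [if_pos c] <;> split_ifs <;> norm_num
  · rw [← l2, ← h3]
    ext e
    simp only [mem_lab, k2, exists_eq_or_imp, mem_union, Option.mem_toFinset, Option.mem_def]
  · rcases l3 y hy with c | rfl | rfl
    · obtain ⟨s', c1, c2⟩ := h4 y c
      exact ⟨s', sub _ c1, c2⟩
    · exact ⟨s, sub _ s1, s2⟩
    · exact ⟨_, new, rfl⟩

theorem Pt.out (hD : ∀ a b, (a, b) ∈ D → (b, a) ∉ D) (hα : 0 ≤ α) (hβ : 0 ≤ β) (hρ : 1 ≤ ρ)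
    (y μ : V) (m : ℕ) : ∀ (n : ℕ) (Y : Finset V) (r : ℝ),
    (∀ l < m, (p^[l] y, p (p^[l] y)) ∈ D ∨ (p (p^[l] y), p^[l] y) ∈ D) →
    Pt D α β ρ v p n Y r (p^[m] y) μ → Pt D α β ρ v p (n + m) (Y ∪ pa p y m)
      (r * (β ^ m * ρ ^ cnt p (fun z => ¬ (z, p z) ∈ D) y m)) y μ := by
  induction m with
  | zero => intro n Y r _ h; simpa [pa, cnt] using h
  | succ m ih =>
    intro n Y r ha h
    rw [Function.iterate_succ_apply'] at h
    have h1 := ih _ _ _ (fun l hl => ha l (by omega)) (h.step hα hβ hρ (p^[m] y)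
      (Or.inr (Or.inr ⟨rfl, rfl⟩)) (cd_nonneg D hβ hρ _ _)
      (le_add_of_nonneg_right (by split_ifs <;> simp [hα])))
    rw [pa, union_insert, ← insert_union]
    refine h1.weak (by omega) (le_of_eq ?_)
    rcases ha m (by omega) with c | c <;> simp only [cnt, cd, c, hD _ _ c, not_true, if_true,
      if_false, not_false_iff] <;> ring

theorem Pt.inn (hD : ∀ a b, (a, b) ∈ D → (b, a) ∉ D) (hα : 0 ≤ α) (hβ : 0 ≤ β) (hρ : 1 ≤ ρ)
    {y μ : V} {n : ℕ} {Y : Finset V} {r : ℝ} (h : Pt D α β ρ v p n Y r y μ) (m : ℕ) :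
    (∀ l < m, (p^[l] y, p (p^[l] y)) ∈ D ∨ (p (p^[l] y), p^[l] y) ∈ D) →
    Pt D α β ρ v p (n + m) (Y ∪ pa p y m)
      (r * (β ^ m * ρ ^ cnt p (fun z => (z, p z) ∈ D) y m)) (p^[m] y) μ := by
  induction m with
  | zero => intro _; simpa [pa, cnt] using h
  | succ m ih =>
    intro ha
    have h1 := (ih fun l hl => ha l (by omega)).step hα hβ hρ (p (p^[m] y))
      (Or.inr (Or.inl ⟨rfl, rfl⟩)) (cd_nonneg D hβ hρ _ _)
      (le_add_of_nonneg_right (by split_ifs <;> simp [hα]))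
    rw [pa, union_insert, Function.iterate_succ_apply']
    refine h1.weak (by omega) (le_of_eq ?_)
    rcases ha m (by omega) with c | c <;> simp only [cnt, cd, c, hD _ _ c, if_true,
      if_false] <;> ring

theorem cs_sum {k Δ : ℕ} (hk : ∀ y, (univ.filter fun u => (y, u) ∈ D).card ≤ k)
    (hΔ : ∀ u, (univ.filter fun y => (y, u) ∈ D).card ≤ Δ) (hβ : 0 ≤ β) (hρ : 1 ≤ ρ)
    (h1 : β * Δ = α) (h2 : ρ * k = Δ) (s : St V) : ∑ s', cs D α β ρ s s' ≤ 18 * α := by
  have hρ' : 0 ≤ ρ := by linarith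
  have h3 : ∑ b, cd D β ρ s.1 b ≤ 2 * α :=
    calc _ ≤ ∑ y, ((if (s.1, y) ∈ D then β * ρ else 0) + if (y, s.1) ∈ D then β else 0) :=
          sum_le_sum fun y _ => by unfold cd; split_ifs <;> simp [hβ]
      _ ≤ k * (β * ρ) + Δ * β := by
          rw [sum_add_distrib, ← sum_filter, ← sum_filter, sum_const, sum_const, nsmul_eq_mul,
            nsmul_eq_mul]
          gcongr
          · exact hk _
          · exact hΔ _
      _ = _ := by rw [← h1, ← h2]; ring
  have h4 : ∀ b m, ∑ l, cs D α β ρ s (b, m, l) = ((if m = s.2.1 then 1 else 0) +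
      if m = s.1 then 1 else 0) * 3 * (cd D β ρ s.1 b + if b = m then α else 0) := by
    intro b m
    have : ∀ l, cs D α β ρ s (b, m, l) = ((if m = s.2.1 then 1 else 0) +
      if m = s.1 then 1 else 0) * ((if l = none then 1 else 0) +
      (if l = some (s.1, b) then 1 else 0) + if l = some (b, s.1) then 1 else 0) *
      (cd D β ρ s.1 b + if b = m then α else 0) := fun l => rfl
    simp only [this, ← sum_mul, ← mul_sum, sum_add_distrib, sum_ite_eq', mem_univ, if_true]
    norm_num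
  simp only [Fintype.sum_prod_type, h4]
  rw [sum_comm]
  simp only [← mul_sum, sum_add_distrib, sum_ite_eq', mem_univ, if_true, ← sum_mul]
  linarith

end

end Pool.Agent.MP_cb5fda_co.Deg

end MrgPart4

-- ======== part 5: formerly Pool.Agent.MP_cb5fda_co.h21.Deg6
section MrgPart5

/-! The skeleton of a spanning tree all of whose arcs are covered. -/

set_option autoImplicit false

namespace Pool.Agent.MP_cb5fda_co.Deg

open Finset Classical

variable {V : Type}

theorem num1 {α β ρ Λ x : ℝ} {i l u : ℕ} (hα0 : 0 ≤ α) (hα : α ≤ 1) (hβ : 0 ≤ β) (hΛ : 1 ≤ Λ)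
    (hx0 : 0 ≤ x) (hx : x ≤ Λ * α * β) (h1 : Λ ^ (i + 4) ≤ ρ) (hl : 0 < l) (h : l ≤ (i + 4) * u) :
    x ^ l ≤ β ^ l * ρ ^ u * α := by
  have a : Λ ^ l ≤ ρ ^ u := (pow_le_pow_right₀ hΛ h).trans
    (by rw [pow_mul]; exact pow_le_pow_left₀ (by positivity) h1 u)
  have b : α ^ l ≤ α := pow_le_of_le_one hα0 hα hl.ne'
  have c : 0 ≤ Λ := by linarith
  calc _ ≤ (Λ * α * β) ^ l := pow_le_pow_left₀ hx0 hx l
    _ = β ^ l * Λ ^ l * α ^ l := by ring
    _ ≤ _ := by have := (pow_nonneg c l).trans a; gcongr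

theorem num2 {α β ρ Λ x Δ : ℝ} {i l u : ℕ} (hα0 : 0 ≤ α) (hα : α ≤ 1) (hβ : 0 ≤ β)
    (hΔ : β * Δ = α) (hΔ0 : 0 ≤ Δ) (hΛ : 1 ≤ Λ)
    (hx0 : 0 ≤ x) (hx : x ≤ Λ * α * β) (h1 : Λ ^ (i + 4) ≤ ρ)
    (h2 : Δ * Λ ^ (4 * (i + 1)) ≤ ρ ^ (i + 1)) (hl : 0 < l) (hu : i + 1 ≤ u) (h : l ≤ 4 * u) :
    x ^ l ≤ β ^ (l + 1) * ρ ^ u := by
  obtain ⟨j, rfl⟩ := Nat.exists_eq_add_of_le hu
  have c : 0 ≤ Λ := by linarith
  have a0 : Λ ^ 4 ≤ ρ := (pow_le_pow_right₀ hΛ (by omega)).trans h1
  have a : Δ * Λ ^ l ≤ ρ ^ (i + 1 + j) :=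
    calc _ ≤ Δ * Λ ^ (4 * (i + 1 + j)) := by gcongr
      _ = Δ * Λ ^ (4 * (i + 1)) * (Λ ^ 4) ^ j := by ring
      _ ≤ ρ ^ (i + 1) * ρ ^ j := by
        have := (mul_nonneg hΔ0 (pow_nonneg c _)).trans h2
        gcongr
      _ = _ := by ring
  have b : α ^ l ≤ α := pow_le_of_le_one hα0 hα hl.ne'
  calc _ ≤ (Λ * α * β) ^ l := pow_le_pow_left₀ hx0 hx l
    _ = β ^ l * Λ ^ l * α ^ l := by ring
    _ ≤ β ^ l * Λ ^ l * α := by gcongr
    _ = β ^ (l + 1) * (Δ * Λ ^ l) := by rw [← hΔ]; ring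
    _ ≤ _ := by gcongr

theorem skel2 [Fintype V] {D : Finset (V × V)} (hD : ∀ a b, (a, b) ∈ D → (b, a) ∉ D)
    {α β ρ Λ x Δ : ℝ} {i : ℕ} (hα0 : 0 ≤ α) (hα : α ≤ 1) (hβ : 0 ≤ β)
    (hΔ : β * Δ = α) (hΔ0 : 0 ≤ Δ) (hΛ : 1 ≤ Λ)
    (hx0 : 0 ≤ x) (hx : x ≤ Λ * α * β) (h1 : Λ ^ (i + 4) ≤ ρ)
    (h2 : Δ * Λ ^ (4 * (i + 1)) ≤ ρ ^ (i + 1)) {S : Finset V} {v : V} (hv : v ∈ S) (hS : S ≠ {v})
    (hc : ∀ Y : V → Prop, ∀ a ∈ S, Y a → ¬ Y v → ∃ e ∈ Ed D S, ∃ f ∈ Ed D S, e ≠ f ∧
      ¬ (Y e.1 ↔ Y e.2) ∧ ¬ (Y f.1 ↔ Y f.2)) {p : V → V} {d : V → ℕ} (pv : p v = v)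
    (hp : ∀ y ∈ S, y ≠ v → p y ∈ S ∧ d (p y) < d y ∧ ((y, p y) ∈ D ∨ (p y, y) ∈ D)) :
    ∃ Y ⊆ S.erase v, Y ≠ ∅ ∧ Pt D α β ρ v p (2 * Y.card) Y (x ^ Y.card) v v ∧
      ∃ h : V → ℕ, ∀ y ∈ S, y ∉ insert v Y → (y, p y) ∈ D ∧ h y < i ∧
        (h y = 0 → p y ∈ insert v Y) ∧ (h y ≠ 0 → p y ∉ insert v Y ∧ h (p y) + 1 = h y) := by
  have hρ : 1 ≤ ρ := (one_le_pow₀ hΛ).trans h1
  have hρ0 : 0 ≤ ρ := by linarith
  obtain ⟨Y, hY, hmax⟩ := exists_max_image ((S.erase v).powerset.filter fun Y =>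
    (∀ y ∈ Y, p y ∈ insert v Y) ∧ Pt D α β ρ v p (2 * Y.card) Y (x ^ Y.card) v v) card
    ⟨∅, mem_filter.2 ⟨by simp, by simp, ∅, 1, .nil _ _, by simp, by simp [lab], by simp,
      _, Or.inl rfl, rfl, Or.inr rfl⟩⟩
  rw [mem_filter, mem_powerset] at hY
  obtain ⟨hYS, hYc, hYP⟩ := hY
  have F0 : ∀ y ∈ S, ∀ l, p^[l] y ∈ S := by
    intro y hy l
    induction l with
    | zero => exact hy
    | succ l ih =>
      rw [Function.iterate_succ_apply']
      by_cases c : p^[l] y = v
      · rw [c, pv]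
        exact hv
      · exact (hp _ ih c).1
  have F1 : ∀ n, ∀ y ∈ S, d y < n → ∃ l, p^[l] y = v := by
    intro n
    induction n with
    | zero => intro y _ h; omega
    | succ n ih =>
      intro y hy h
      by_cases c : y = v
      · exact ⟨0, c⟩
      · obtain ⟨l, hl⟩ := ih (p y) (hp y hy c).1 (by have := (hp y hy c).2.1; omega)
        exact ⟨l + 1, hl⟩
  have F3 : ∀ y ∈ S, ∀ j, (∀ l < j, p^[l] y ≠ v) → d (p^[j] y) + j ≤ d y := by
    intro y hy j
    induction j with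
    | zero => simp
    | succ j ih =>
      intro h
      have a := ih fun l hl => h l (by omega)
      have b := (hp _ (F0 y hy j) (h j (by omega))).2.1
      rw [Function.iterate_succ_apply']
      omega
  have cl : ∀ Z : Finset V, (∀ y ∈ Z, p y ∈ insert v Z) → ∀ y ∈ insert v Z, ∀ l,
      p^[l] y ∈ insert v Z := by
    intro Z hZ y hy l
    induction l with
    | zero => exact hy
    | succ l ih =>
      rw [Function.iterate_succ_apply']
      rcases mem_insert.1 ih with c | c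
      · rw [c, pv]
        exact mem_insert_self _ _
      · exact hZ _ c
  obtain ⟨good, hgood⟩ : ∃ good : Finset V → ℕ → Prop, ∀ Z j, good Z j ↔ Z ⊆ S.erase v ∧
    (∀ y ∈ Z, p y ∈ insert v Z) ∧ Z.card = Y.card + j := ⟨_, fun _ _ => Iff.rfl⟩
  have fin : ∀ (Z : Finset V) (l n : ℕ) (r : ℝ) (b μ : V), good Z l → 0 < l →
      n ≤ 2 * Y.card + 2 * l → Pt D α β ρ v p n Z r b μ → x ^ Y.card * x ^ l ≤ r → False := by
    intro Z l n r b μ g hl hn hP hr
    rw [hgood] at g
    have := hmax Z (mem_filter.2 ⟨mem_powerset.2 g.1, g.2.1, (hP.jump (mem_insert_self _ _)).weak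
      (by omega) (by rw [g.2.2, pow_add]; exact hr)⟩)
    omega
  have nv : ∀ {Z : Finset V} {u : V}, u ∉ insert v Z → u ≠ v := fun h c =>
    h (c ▸ mem_insert_self _ _)
  have ext : ∀ (Z : Finset V) (j : ℕ), good Z j → ∀ z ∈ S, ∀ a, (∀ l < a, p^[l] z ∉ insert v Z) →
      p^[a] z ∈ insert v Z → good (Z ∪ pa p z a) (j + a) := by
    intro Z j g z hz a ha hb
    rw [hgood] at g ⊢
    refine ⟨union_subset g.1 fun u hu => ?_, fun u hu => ?_, ?_⟩
    · obtain ⟨l, hl, rfl⟩ := mem_pa.1 hu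
      exact mem_erase.2 ⟨nv (ha l hl), F0 z hz l⟩
    · rcases mem_union.1 hu with c | c
      · exact insert_subset_insert _ subset_union_left (g.2.1 u c)
      · obtain ⟨l, hl, rfl⟩ := mem_pa.1 c
        rw [← Function.iterate_succ_apply' p]
        by_cases e : l + 1 = a
        · exact insert_subset_insert _ subset_union_left (by subst e; exact hb)
        · exact mem_insert_of_mem (mem_union_right _ (mem_pa.2 ⟨l + 1, by omega, rfl⟩))
    · clear hb
      induction a with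
      | zero => simpa [pa] using g.2.2
      | succ a ih =>
        rw [pa, union_insert, card_insert_of_notMem, ih fun l hl => ha l (by omega)]
        · omega
        · intro c
          rcases mem_union.1 c with c | c
          · exact ha a (by omega) (mem_insert_of_mem c)
          · obtain ⟨l, hl, c⟩ := mem_pa.1 c
            have := F3 _ (F0 z hz l) (a - l) fun m hm => by
              rw [← Function.iterate_add_apply]
              exact nv (ha _ (by omega))
            rw [← Function.iterate_add_apply, Nat.sub_add_cancel hl.le, c] at this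
            omega
  have arcs : ∀ {Z : Finset V} {z : V} {a : ℕ}, z ∈ S → (∀ l < a, p^[l] z ∉ insert v Z) →
      ∀ l < a, (p^[l] z, p (p^[l] z)) ∈ D ∨ (p (p^[l] z), p^[l] z) ∈ D := fun hz ha l hl =>
    (hp _ (F0 _ hz l) (nv (ha l hl))).2.2
  obtain ⟨dn, hdn⟩ : ∃ dn, dn = cnt p fun z => (z, p z) ∈ D := ⟨_, rfl⟩
  obtain ⟨un, hun⟩ : ∃ un, un = cnt p fun z => ¬ (z, p z) ∈ D := ⟨_, rfl⟩
  have du : ∀ z a, dn z a + un z a = a := fun z a => by rw [hdn, hun]; exact cnt_compl ..
  have both : ∀ (σ : ℕ) (Z : Finset V) (μ : V), good Z σ →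
      Pt D α β ρ v p (2 * Y.card + σ) Z (x ^ Y.card * β ^ σ) μ μ → ∀ z ∈ S, ∀ q ∈ S, ∀ a b : ℕ,
      (∀ l < a, p^[l] z ∉ insert v Z) → p^[a] z ∈ insert v Z →
      (∀ l < b, p^[l] q ∉ insert v Z) → p^[b] q ∈ insert v Z →
      (∀ l < a, ∀ l' < b, p^[l] z ≠ p^[l'] q) →
      (0 < σ + a + b → ¬ σ + a + b ≤ (i + 4) * (un z a + un q b)) ∧
      ((z, q) ∈ D ∨ (q, z) ∈ D → (σ = 0 → i + 1 ≤ dn q b → ¬ a + b ≤ 4 * dn q b) ∧
        ∀ b', b = b' + 1 → p^[a] z = p^[b] q →
          ¬ σ + a + b ≤ (i + 4) * (un z a + (if (z, q) ∈ D then 1 else 0) + dn q b')) := by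
    intro σ Z μ g hP z hz q hq a b a1 a2 b1 b2 ab
    have g1 := ext Z σ g z hz a a1 a2
    have b3 : ∀ l < b, p^[l] q ∉ insert v (Z ∪ pa p z a) := fun l hl c => by
      rw [← insert_union] at c
      rcases mem_union.1 c with c | c
      · exact b1 l hl c
      · obtain ⟨m, hm, c⟩ := mem_pa.1 c
        exact ab m hm l hl c
    have b4 : p^[b] q ∈ insert v (Z ∪ pa p z a) := insert_subset_insert _ subset_union_left b2
    have g2 := ext _ _ g1 q hq b b3 b4
    have P1 := Pt.out hD hα0 hβ hρ z (p^[a] z) a _ _ _ (arcs hz a1) (hP.jump a2)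
    rw [← hun] at P1
    have hxY := pow_nonneg hx0 Y.card
    refine ⟨fun h0 h => ?_, fun adj => ?_⟩
    · have P2 := Pt.out hD hα0 hβ hρ q (p^[b] q) b _ _ _ (arcs hq b1) (P1.jump b4)
      rw [← hun] at P2
      refine fin _ _ _ _ _ _ g2 h0 (by omega) P2 ?_
      calc _ ≤ x ^ Y.card * (β ^ (σ + a + b) * ρ ^ (un z a + un q b) * α) :=
            mul_le_mul_of_nonneg_left (num1 hα0 hα hβ hΛ hx0 hx h1 h0 h) hxY
        _ ≤ x ^ Y.card * (β ^ (σ + a + b) * ρ ^ (un z a + un q b) * 1) := by gcongr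
        _ = _ := by ring
    have P2 := P1.step hα0 hβ hρ q (Or.inl rfl)
      (u := β * ρ ^ if (z, q) ∈ D then 1 else 0) (by positivity)
      (le_add_of_le_of_nonneg (by rcases adj with c | c <;> simp [cd, c, hD _ _ c])
        (by split_ifs <;> simp [hα0]))
    refine ⟨fun h0 h3 h => ?_, fun b' e h3 h => ?_⟩
    · have P3 := P2.inn hD hα0 hβ hρ b (arcs hq b1)
      rw [← hdn] at P3
      have := du q b
      refine fin _ _ _ _ _ _ g2 (by omega) (by omega) P3 ?_
      subst h0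
      calc _ ≤ x ^ Y.card * (β ^ (0 + a + b + 1) * ρ ^ dn q b) := mul_le_mul_of_nonneg_left
            (num2 hα0 hα hβ hΔ hΔ0 hΛ hx0 hx h1 h2 (by omega) h3 (by omega)) hxY
        _ ≤ x ^ Y.card * (β ^ (0 + a + b + 1) *
            ρ ^ (dn q b + un z a + if (z, q) ∈ D then 1 else 0)) := by gcongr; omega
        _ = _ := by ring
    · subst e
      have P3 := (P2.inn hD hα0 hβ hρ b' fun l hl => arcs hq b1 l (by omega)).step hα0 hβ hρ
        (p^[a] z) (Or.inr (Or.inl ⟨by rw [h3, Function.iterate_succ_apply'], rfl⟩)) hα0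
        (by rw [if_pos rfl]; exact le_add_of_nonneg_left (cd_nonneg D hβ hρ _ _))
      rw [← hdn, ← union_insert] at P3
      refine fin _ _ _ _ _ _ g2 (by omega) (by omega) P3 ?_
      refine (mul_le_mul_of_nonneg_left (num1 hα0 hα hβ hΛ hx0 hx h1 (by omega) h) hxY).trans
        (le_of_eq ?_)
      ring
  obtain ⟨ht, hht⟩ : ∃ ht : V → ℕ, ∀ y, ht y = sInf {l | p^[l] y ∈ insert v Y} := ⟨_, fun _ => rfl⟩
  have t1 : ∀ y ∈ S, p^[ht y] y ∈ insert v Y := fun y hy => by
    obtain ⟨l, hl⟩ := F1 _ y hy (Nat.lt_succ_self _)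
    rw [hht]
    exact Nat.sInf_mem (s := {l | p^[l] y ∈ insert v Y}) ⟨l, by simp [hl]⟩
  have t2 : ∀ y, ∀ l < ht y, p^[l] y ∉ insert v Y := fun y l hl => by
    rw [hht] at hl
    exact Nat.notMem_of_lt_sInf hl
  have t3 : ∀ y l, p^[l] y ∈ insert v Y → ht y ≤ l := fun y l hl => by
    by_contra c
    exact t2 y l (by omega) hl
  have t4 : ∀ y ∈ S, ∀ l ≤ ht y, ht (p^[l] y) + l = ht y := fun y hy l hl => by
    have a := t3 (p^[l] y) (ht y - l) (by
      rw [← Function.iterate_add_apply, Nat.sub_add_cancel hl]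
      exact t1 y hy)
    have b := t3 y (ht (p^[l] y) + l) (by
      rw [Function.iterate_add_apply]
      exact t1 _ (F0 y hy l))
    omega
  have t5 : ∀ y ∈ S, y ∉ insert v Y → 0 < ht y := fun y hy h => by
    by_contra c
    have := t1 y hy
    rw [show ht y = 0 by omega] at this
    exact h this
  have g0 : good Y 0 := (hgood _ _).2 ⟨hYS, hYc, rfl⟩
  have P0 : Pt D α β ρ v p (2 * Y.card + 0) Y (x ^ Y.card * β ^ 0) v v := by simpa using hYP
  have C1 : ∀ y ∈ S, ht y ≤ i + 1 → un y (ht y) = 0 := fun y hy h => by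
    by_contra c
    have := du y (ht y)
    refine (both 0 Y v g0 P0 y hy v hv (ht y) 0 (t2 y) (t1 y hy) (by simp) (by simp)
      (by simp)).1 (by omega) ?_
    have := Nat.mul_le_mul_left (i + 4) (show 1 ≤ un y (ht y) + un v 0 by omega)
    omega
  have C2 : ∀ y ∈ S, y ∉ insert v Y → ht y ≤ i + 1 → (y, p y) ∈ D := fun y hy h h' =>
    not_not.1 (cnt_zero (p := p) (Q := fun z => ¬ (z, p z) ∈ D) (hun ▸ C1 y hy h') 0 (t5 y hy h))
  have CYC : ∀ y ∈ S, y ∉ insert v Y → ht y ≤ i + 1 → ht y = i + 1 ∨ Y = ∅ → False := by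
    intro y hy hyY hi hcase
    have up : ∀ u ∈ insert v Y, ∀ m, p^[m] u ≠ y := fun u hu m c => hyY (c ▸ cl Y hYc u hu m)
    obtain ⟨z, hz, q, hq, ⟨m, hm⟩, hq', adj, hne⟩ : ∃ z ∈ S, ∃ q ∈ S, (∃ m, p^[m] z = y) ∧
        (∀ m, p^[m] q ≠ y) ∧ ((z, q) ∈ D ∨ (q, z) ∈ D) ∧ ¬ (z = y ∧ q = p y) := by
      obtain ⟨e, he, f, hf, hef, c1, c2⟩ := hc (fun z => ∃ m, p^[m] z = y) y hy ⟨0, rfl⟩
        fun ⟨m, c⟩ => up v (mem_insert_self _ _) m c
      obtain ⟨e, he, c0, c1⟩ : ∃ e ∈ Ed D S, e ≠ (y, p y) ∧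
          ¬ ((∃ m, p^[m] e.1 = y) ↔ ∃ m, p^[m] e.2 = y) := by
        by_cases c : e = (y, p y)
        · exact ⟨f, hf, fun c' => hef (c.trans c'.symm), c2⟩
        · exact ⟨e, he, c, c1⟩
      rw [mem_Ed] at he
      by_cases c : ∃ m, p^[m] e.1 = y
      · exact ⟨_, he.2.1, _, he.2.2, c, fun m c' => c1 (iff_of_true c ⟨m, c'⟩), Or.inl he.1,
          fun c' => c0 (Prod.ext c'.1 c'.2)⟩
      · refine ⟨_, he.2.2, _, he.2.1, not_not.1 fun c' => c1 (iff_of_false c c'),
          fun m c' => c ⟨m, c'⟩, Or.inr he.1, fun c' => hD _ _ (C2 y hy hyY hi) ?_⟩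
        rw [← c'.1, ← (c'.1 ▸ c'.2 : e.1 = p e.2)]
        exact he.1
    have m1 : m ≤ ht z := by
      by_contra c
      refine up _ (t1 z hz) (m - ht z) ?_
      rw [← Function.iterate_add_apply, Nat.sub_add_cancel (by omega), hm]
    have m2 := t4 z hz m m1
    rw [hm] at m2
    obtain ⟨a, ha⟩ : ∃ a, a = sInf {l | p^[l] z ∈ insert v Y ∨ ∃ l', p^[l'] q = p^[l] z} := ⟨_, rfl⟩
    have a1 : p^[a] z ∈ insert v Y ∨ ∃ l', p^[l'] q = p^[a] z := ha ▸ Nat.sInf_mem
      (s := {l | p^[l] z ∈ insert v Y ∨ ∃ l', p^[l'] q = p^[l] z}) ⟨_, Or.inl (t1 z hz)⟩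
    have a2 : ∀ l < a, ¬ (p^[l] z ∈ insert v Y ∨ ∃ l', p^[l'] q = p^[l] z) := fun l hl =>
      Nat.notMem_of_lt_sInf (ha ▸ hl)
    have a3 : a ≤ ht z := by
      by_contra c
      exact a2 _ (by omega) (Or.inl (t1 z hz))
    have a4 : m < a := by
      by_contra c
      have e : p^[m - a] (p^[a] z) = y := by
        rw [← Function.iterate_add_apply, Nat.sub_add_cancel (by omega), hm]
      rcases a1 with c' | ⟨l, c'⟩
      · exact up _ c' _ e
      · exact hq' (m - a + l) (by rw [Function.iterate_add_apply, c', e])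
    by_cases hL : ∃ b, p^[b] q = p^[a] z ∧ ∀ l < b, p^[l] q ∉ insert v Y ∧
        ∀ j, p^[l] q ≠ p^[j] (p^[a] z)
    · obtain ⟨b, b1, b2⟩ := hL
      obtain ⟨w, hw⟩ : ∃ w, w = p^[a] z := ⟨_, rfl⟩
      rw [← hw] at b1 b2
      have wS : w ∈ S := hw ▸ F0 z hz a
      have s1 : ht w + a = ht z := hw ▸ t4 z hz a a3
      have g := ext Y 0 g0 w wS (ht w) (t2 w) (t1 w wS)
      have wZ : w ∈ insert v (Y ∪ pa p w (ht w)) := by
        by_cases c : ht w = 0
        · exact insert_subset_insert _ subset_union_left (by simpa [c] using t1 w wS)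
        · exact mem_insert_of_mem (mem_union_right _ (mem_pa.2 ⟨0, by omega, rfl⟩))
      have P1 : Pt D α β ρ v p (2 * Y.card + (0 + ht w)) (Y ∪ pa p w (ht w))
          (x ^ Y.card * β ^ (0 + ht w)) w w := by
        refine ((Pt.out hD hα0 hβ hρ w _ _ _ _ _ (arcs wS (t2 w)) (hYP.jump (t1 w wS))).jump
          wZ).weak (by omega) (mul_le_mul_of_nonneg_left ?_ (pow_nonneg hx0 _))
        rw [zero_add]
        exact le_mul_of_one_le_right (pow_nonneg hβ _) (one_le_pow₀ hρ)
      have z1 : ∀ l < a, p^[l] z ∉ insert v (Y ∪ pa p w (ht w)) := fun l hl c => by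
        rw [← insert_union] at c
        rcases mem_union.1 c with c | c
        · exact a2 l hl (Or.inl c)
        · obtain ⟨j, -, c⟩ := mem_pa.1 c
          exact a2 l hl (Or.inr ⟨j + b, by rw [Function.iterate_add_apply, b1, c]⟩)
      have q1 : ∀ l < b, p^[l] q ∉ insert v (Y ∪ pa p w (ht w)) := fun l hl c => by
        rw [← insert_union] at c
        rcases mem_union.1 c with c | c
        · exact (b2 l hl).1 c
        · obtain ⟨j, -, c⟩ := mem_pa.1 c
          exact (b2 l hl).2 j c.symm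
      have zq : ∀ l < a, ∀ l' < b, p^[l] z ≠ p^[l'] q := fun l hl l' _ c =>
        a2 l hl (Or.inr ⟨l', c.symm⟩)
      obtain ⟨B1, B2⟩ := both _ _ w g P1 z hz q hq a b z1 (hw ▸ wZ) q1 (b1 ▸ wZ) zq
      obtain ⟨-, B3⟩ := both _ _ w g P1 q hq z hz b a q1 (b1 ▸ wZ) z1 (hw ▸ wZ)
        fun l hl l' hl' => (zq l' hl' l hl).symm
      obtain ⟨a', rfl⟩ : ∃ a', a = a' + 1 := ⟨a - 1, by omega⟩
      have key : ∀ u, ¬ 0 + ht w + (a' + 1) + b ≤ (i + 4) * u → u = 0 ∨ 3 * u < a' + b := by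
        intro u hu
        by_contra c
        have := Nat.mul_le_mul_left (i + 1) (show 1 ≤ u by omega)
        rw [show (i + 4) * u = (i + 1) * u + 3 * u by ring] at hu
        omega
      have k1 := key _ (B1 (by omega))
      have k3 := key _ (by
        have := (B3 adj.symm).2 a' rfl (b1.trans hw)
        rwa [add_right_comm] at this)
      have e1 := du z (a' + 1)
      have e2 := du q b
      have e3 : dn z (a' + 1) ≤ dn z a' + 1 := by rw [hdn, cnt]; split_ifs <;> omega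
      rcases b with _ | b'
      · have : a' ≠ 0 := by
          rintro rfl
          have : z = y := by rw [← hm, show m = 0 by omega]; rfl
          exact hne ⟨this, by rw [← this]; exact b1.trans hw⟩
        omega
      · have k2 := key _ ((B2 adj).2 b' rfl (hw.symm.trans b1.symm))
        have e4 : dn q (b' + 1) ≤ dn q b' + 1 := by rw [hdn, cnt]; split_ifs <;> omega
        rcases adj with c | c <;> simp only [c, hD _ _ c, if_true, if_false] at k2 k3 <;> omega
    have mk : (∃ l, p^[l] q = p^[a] z) → p^[a] z ∉ insert v Y ∨ Y = ∅ → False := by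
      intro h h'
      have b1 := Nat.find_spec h
      have b2 : ∀ l < Nat.find h, p^[l] q ≠ v := fun l hl c => Nat.find_min h hl (by
        rw [← b1, ← Nat.sub_add_cancel hl.le, Function.iterate_add_apply, c,
          Function.iterate_fixed pv])
      refine hL ⟨_, b1, fun l hl => ⟨fun c => ?_, fun j c => ?_⟩⟩
      · rcases h' with h' | rfl
        · refine h' ?_
          rw [← b1, ← Nat.sub_add_cancel hl.le, Function.iterate_add_apply]
          exact cl Y hYc _ c _
        · exact b2 l hl (by simpa using c)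
      · have e1 := F3 _ (F0 q hq l) (Nat.find h - l) fun n hn => by
          rw [← Function.iterate_add_apply]
          exact b2 _ (by omega)
        rw [← Function.iterate_add_apply, Nat.sub_add_cancel hl.le, b1] at e1
        have e2 := F3 _ (F0 z hz a) j fun n hn c' => b2 l hl (by
          rw [c, ← Nat.sub_add_cancel hn.le, Function.iterate_add_apply, c',
            Function.iterate_fixed pv])
        rw [← c] at e2
        omega
    have w1 : p^[a] z ∈ insert v Y := by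
      by_contra c
      exact mk (a1.resolve_left c) (Or.inl c)
    have w2 : ht y = i + 1 := hcase.resolve_right fun c => mk (by
      obtain ⟨l, hl⟩ := F1 _ q hq (Nat.lt_succ_self _)
      exact ⟨l, hl.trans (by simpa [c] using w1 : p^[a] z = v).symm⟩) (Or.inr c)
    have zq : ∀ l < a, ∀ l' < ht q, p^[l] z ≠ p^[l'] q := fun l hl l' _ c =>
      a2 l hl (Or.inr ⟨l', c.symm⟩)
    have z1 : ∀ l < a, p^[l] z ∉ insert v Y := fun l hl c => a2 l hl (Or.inl c)
    obtain ⟨B1, B2⟩ := both _ _ v g0 P0 z hz q hq a _ z1 w1 (t2 q) (t1 q hq) zq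
    obtain ⟨-, B3⟩ := both _ _ v g0 P0 q hq z hz _ a (t2 q) (t1 q hq) z1 w1
      fun l hl l' hl' => (zq l' hl' l hl).symm
    have k1 := B1 (by omega)
    have k2 := (B2 adj).1 rfl
    have k3 := (B3 adj.symm).1 rfl
    have e0 := t3 z a w1
    have e1 := du z a
    have e2 := du q (ht q)
    have e3 := du y (ht y)
    have e4 := C1 y hy hi
    have e5 : dn z (m + ht y) = dn z m + dn y (ht y) := by rw [hdn, cnt_add, hm]
    rw [show m + ht y = a by omega] at e5
    have := Nat.mul_le_mul_right (un z a + un q (ht q)) (show 4 ≤ i + 4 by omega)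
    omega
  have C3 : ∀ y ∈ S, ht y ≤ i := fun y hy => by
    by_contra c
    have := t4 y hy (ht y - (i + 1)) (by omega)
    exact CYC _ (F0 y hy (ht y - (i + 1))) (t2 y _ (by omega)) (by omega) (Or.inl (by omega))
  refine ⟨Y, hYS, fun c => ?_, hYP, fun y => ht y - 1, fun y hy h => ?_⟩
  · obtain ⟨y, hy, hyv⟩ : ∃ y ∈ S, y ≠ v := by
      by_contra h
      push Not at h
      exact hS (eq_singleton_iff_unique_mem.2 ⟨hv, h⟩)
    exact CYC y hy (by simpa [c] using hyv) (by have := C3 y hy; omega) (Or.inr c)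
  · have a := C3 y hy
    have b := t5 y hy h
    have c := t4 y hy 1 b
    rw [Function.iterate_one] at c
    dsimp only
    refine ⟨C2 y hy h (by omega), by omega, fun e => ?_, fun e => ⟨t2 y 1 (by omega), by omega⟩⟩
    have := t1 y hy
    rwa [show ht y = 1 by omega] at this

end Pool.Agent.MP_cb5fda_co.Deg

end MrgPart5

-- marker of a merged file
example : 731051 + 720242 = 731051 + 720242 := rfl
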