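import Pool.Agent.MP_cb5fda_co.h21.Deg6

/-! The zero free region of graphs of degeneracy at most `D ^ (1 - ε)`. -/

set_option autoImplicit false

namespace Pool.Agent.MP_cb5fda_co.Deg

open Finset Classical

variable {V : Type}

theorem span {U : Finset (V × V)} {S : Finset V} {v : V}
    (hU : ∀ e ∈ U, e.1 ∈ S ∧ e.2 ∈ S) (hc : ∀ u ∈ S, Con U v u) :
    ∃ (p : V → V) (d : V → ℕ), p v = v ∧ ∀ y ∈ S, y ≠ v →
      p y ∈ S ∧ d (p y) < d y ∧ ((y, p y) ∈ U ∨ (p y, y) ∈ U) := by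
  obtain ⟨A, A0, A1⟩ : ∃ A : ℕ → V → Prop, (∀ y, A 0 y ↔ y = v) ∧
      ∀ n y, A (n + 1) y ↔ ∃ u, A n u ∧ ((y, u) ∈ U ∨ (u, y) ∈ U) :=
    ⟨fun n => Nat.rec (· = v) (fun _ B y => ∃ u, B u ∧ ((y, u) ∈ U ∨ (u, y) ∈ U)) n,
      fun _ => Iff.rfl, fun _ _ => Iff.rfl⟩
  have key : ∀ y, ∃ u, (y = v → u = v) ∧ (y ∈ S → y ≠ v → u ∈ S ∧
      sInf {n | A n u} < sInf {n | A n y} ∧ ((y, u) ∈ U ∨ (u, y) ∈ U)) := by
    intro y
    by_cases h : y ∈ S ∧ y ≠ v
    · have h1 : A (sInf {n | A n y}) y := Nat.sInf_mem (s := {n | A n y})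
        ((hc y h.1 (fun y => ∃ n, A n y) fun e he =>
          ⟨fun ⟨n, c⟩ => ⟨n + 1, (A1 _ _).2 ⟨_, c, Or.inr he⟩⟩,
            fun ⟨n, c⟩ => ⟨n + 1, (A1 _ _).2 ⟨_, c, Or.inl he⟩⟩⟩).1 ⟨0, (A0 _).2 rfl⟩)
      generalize sInf {n | A n y} = m at h1
      rcases m with _ | m
      · exact (h.2 ((A0 _).1 h1)).elim
      · obtain ⟨u, h2, h3⟩ := (A1 _ _).1 h1
        exact ⟨u, fun c => (h.2 c).elim, fun _ _ => ⟨h3.elim (fun c => (hU _ c).2)
          fun c => (hU _ c).1, Nat.lt_succ_of_le (Nat.sInf_le h2), h3⟩⟩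
    · exact ⟨v, fun _ => rfl, fun a b => (h ⟨a, b⟩).elim⟩
  choose p h1 h2 using key
  exact ⟨p, fun y => sInf {n | A n y}, h1 v rfl, h2⟩

theorem pow_sum {α : Type} (μ : ℝ) (E : Finset α) :
    ∑ U ∈ E.powerset, μ ^ U.card = (1 + μ) ^ E.card := by
  have := prod_one_add (f := fun _ => μ) E
  simp only [prod_const] at this
  exact this.symm

theorem sup_sum {α : Type} [DecidableEq α] {μ : ℝ} (hμ : 0 ≤ μ) (O E : Finset α) :
    ∑ U ∈ E.powerset, (if O ⊆ U then μ ^ U.card else 0) ≤ μ ^ O.card * (1 + μ) ^ E.card := by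
  rw [← sum_filter, ← pow_sum, sum_congr rfl (g := fun U => μ ^ O.card * μ ^ (U \ O).card)
    fun U hU => by rw [← pow_add, add_comm, card_sdiff_add_card_eq_card (mem_filter.1 hU).2],
    ← mul_sum, ← sum_image (f := fun U => μ ^ U.card) (g := fun U => U \ O) fun U hU U' hU' c => by
      rw [← union_sdiff_of_subset (mem_filter.1 hU).2, ← union_sdiff_of_subset (mem_filter.1 hU').2]
      exact congrArg _ c]
  refine mul_le_mul_of_nonneg_left (sum_le_sum_of_subset_of_nonneg (fun U hU => ?_)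
    fun _ _ _ => by positivity) (by positivity)
  obtain ⟨U', h, rfl⟩ := mem_image.1 hU
  exact mem_powerset.2 (sdiff_subset.trans (mem_powerset.1 (mem_filter.1 h).1))

/-- a tower of exponentials -/
noncomputable def tw (s : ℝ) : ℕ → ℝ
  | 0 => 1
  | j + 1 => Real.exp (s * tw s j)

theorem one_le_tw {s : ℝ} (hs : 0 ≤ s) (j : ℕ) : 1 ≤ tw s j := by
  induction j with
  | zero => exact le_rfl
  | succ j ih => exact Real.one_le_exp (mul_nonneg hs (by linarith))

theorem tower (i : ℕ) : ∀ ε : ℝ, 0 < ε → ∃ c : ℝ, 0 < c ∧ ∀ᶠ y : ℝ in Filter.atTop,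
    0 < Real.log^[i] y ∧ ∀ s, 0 ≤ s → s ≤ c * Real.log^[i] y → (1 + s) * tw s i ≤ ε * y := by
  induction i with
  | zero =>
    intro ε hε
    refine ⟨ε / 2, by positivity, ?_⟩
    filter_upwards [Filter.eventually_ge_atTop (2 / ε), Filter.eventually_gt_atTop 0] with y h1 h2
    rw [div_le_iff₀ hε] at h1
    exact ⟨h2, fun s _ h => by simp only [tw, Function.iterate_zero, id] at h ⊢; linarith⟩
  | succ i ih =>
    intro ε hε
    obtain ⟨c, hc, h⟩ := ih (1 / 4) (by norm_num)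
    refine ⟨c, hc, ?_⟩
    filter_upwards [Real.tendsto_log_atTop.eventually h, Filter.eventually_gt_atTop 0,
      Real.tendsto_log_atTop.eventually (Filter.eventually_ge_atTop (2 / ε))] with y h1 h2 h3
    refine ⟨h1.1, fun s h4 h5 => ?_⟩
    have a1 := h1.2 s h4 h5
    have a2 := one_le_tw h4 i
    have a3 := Real.add_one_le_exp s
    have a4 := Real.add_one_le_exp (Real.log y / 2)
    rw [div_le_iff₀ hε] at h3
    calc _ ≤ Real.exp (Real.log y / 4) * Real.exp (Real.log y / 4) * 1 := by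
          rw [mul_one, tw]
          exact mul_le_mul ((by linarith : _ ≤ Real.exp s).trans (Real.exp_le_exp.2 (by nlinarith)))
            (Real.exp_le_exp.2 (by linarith)) (by positivity) (by positivity)
      _ ≤ Real.exp (Real.log y / 4) * Real.exp (Real.log y / 4) *
          (ε * Real.exp (Real.log y / 2)) := by gcongr; nlinarith
      _ = ε * Real.exp (Real.log y) := by
          rw [mul_left_comm, ← Real.exp_add, ← Real.exp_add]
          congr 2
          ring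
      _ = _ := by rw [Real.exp_log h2]

variable [Fintype V]

/-- a majorant of the weights of forests of bounded depth -/
noncomputable def Phi (D : Finset (V × V)) (x : ℝ) : ℕ → Finset V → Finset (V × V) → ℝ
  | 0, _, R => if R = ∅ then 1 else 0
  | j + 1, A, R => ∑ R₁ ∈ (D.filter fun e => e.2 ∈ A).powerset, ∑ R',
      if R₁ ∪ R' = R then x ^ R₁.card * Phi D x j (R₁.image Prod.fst) R' else 0

theorem Phi_nonneg (D : Finset (V × V)) {x : ℝ} (hx : 0 ≤ x) (j : ℕ) :
    ∀ A R, 0 ≤ Phi D x j A R := by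
  induction j with
  | zero => intro A R; simp only [Phi]; split_ifs <;> norm_num
  | succ j ih =>
    intro A R
    refine sum_nonneg fun _ _ => sum_nonneg fun _ _ => ?_
    split_ifs
    · exact mul_nonneg (pow_nonneg hx _) (ih _ _)
    · exact le_rfl

theorem Phi_sum {D : Finset (V × V)} {Δ : ℕ}
    (hΔ : ∀ u, (univ.filter fun y => (y, u) ∈ D).card ≤ Δ) {x : ℝ} (hx : 0 ≤ x) (j : ℕ) :
    ∀ A, ∑ R, Phi D x j A R ≤ tw (x * Δ) j ^ A.card := by
  induction j with
  | zero => intro A; simp [Phi, tw]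
  | succ j ih =>
    intro A
    have g := one_le_tw (s := x * Δ) (by positivity) j
    have a : (D.filter fun e => e.2 ∈ A).card ≤ A.card * Δ := by
      rw [card_eq_sum_card_fiberwise (f := Prod.snd) (s := D.filter fun e => e.2 ∈ A) (t := A)
        fun e he => (mem_filter.1 he).2]
      refine sum_le_card_nsmul _ _ Δ fun u _ => le_trans ?_ (hΔ u)
      refine card_le_card_of_injOn Prod.fst (fun e he => ?_) fun e he f hf c => ?_
      · have := mem_filter.1 (mem_coe.1 he)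
        exact mem_coe.2 (mem_filter.2 ⟨mem_univ _, this.2 ▸ (mem_filter.1 this.1).1⟩)
      · exact Prod.ext c ((mem_filter.1 (mem_coe.1 he)).2.trans (mem_filter.1 (mem_coe.1 hf)).2.symm)
    simp only [Phi]
    rw [sum_comm]
    calc _ ≤ ∑ R₁ ∈ (D.filter fun e => e.2 ∈ A).powerset, (x * tw (x * Δ) j) ^ R₁.card := by
          refine sum_le_sum fun R₁ _ => ?_
          rw [sum_comm]
          simp only [sum_ite_eq, mem_univ, if_true, ← mul_sum, mul_pow]
          exact mul_le_mul_of_nonneg_left ((ih _).trans (pow_le_pow_right₀ g card_image_le))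
            (by positivity)
      _ ≤ Real.exp (x * tw (x * Δ) j) ^ (A.card * Δ) := by
          rw [pow_sum]
          have := Real.add_one_le_exp (x * tw (x * Δ) j)
          exact (pow_le_pow_left₀ (by positivity) (by linarith) _).trans
            (pow_le_pow_right₀ (Real.one_le_exp (by positivity)) a)
      _ = _ := by
          rw [tw, ← Real.exp_nat_mul, ← Real.exp_nat_mul]
          push_cast
          ring_nf

theorem le_Phi (D : Finset (V × V)) {x : ℝ} (hx : 0 ≤ x) (p : V → V) (j : ℕ) :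
    ∀ (A B : Finset V) (h : V → ℕ), (∀ y ∈ B, (y, p y) ∈ D ∧ h y < j ∧ (h y = 0 → p y ∈ A) ∧
      (h y ≠ 0 → p y ∈ B ∧ h (p y) + 1 = h y)) →
      x ^ B.card ≤ Phi D x j A (B.image fun y => (y, p y)) := by
  induction j with
  | zero =>
    intro A B h H
    obtain rfl : B = ∅ := eq_empty_of_forall_notMem fun y hy => by have := (H y hy).2.1; omega
    simp [Phi]
  | succ j ih =>
    intro A B h H
    have n : ∀ R₁ R' R : Finset (V × V), 0 ≤ if R₁ ∪ R' = R then
        x ^ R₁.card * Phi D x j (R₁.image Prod.fst) R' else 0 := fun _ _ _ => by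
      have := Phi_nonneg D hx j
      split_ifs
      · exact mul_nonneg (pow_nonneg hx _) (this _ _)
      · exact le_rfl
    refine le_trans ?_ (single_le_sum (fun _ _ => sum_nonneg fun _ _ => n ..)
      (a := (B.filter fun y => h y = 0).image fun y => (y, p y)) (mem_powerset.2 fun e he => ?_))
    · refine le_trans ?_ (single_le_sum (fun _ _ => n ..)
        (mem_univ ((B.filter fun y => ¬ h y = 0).image fun y => (y, p y))))
      rw [if_pos (by rw [← image_union, filter_union_filter_not_eq]), image_image,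
        card_image_of_injective _ fun a b c => congrArg Prod.fst c,
        ← card_filter_add_card_filter_not (s := B) fun y => h y = 0, pow_add]
      refine mul_le_mul_of_nonneg_left (ih _ _ (fun y => h y - 1) fun y hy => ?_) (pow_nonneg hx _)
      rw [mem_filter] at hy
      obtain ⟨a, b, -, c⟩ := H y hy.1
      obtain ⟨c, e⟩ := c hy.2
      exact ⟨a, by omega, fun f => mem_image.2 ⟨p y, mem_filter.2 ⟨c, by omega⟩, rfl⟩,
        fun f => ⟨mem_filter.2 ⟨c, by omega⟩, by omega⟩⟩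
    · obtain ⟨y, hy, rfl⟩ := mem_image.1 he
      rw [mem_filter] at hy
      exact mem_filter.2 ⟨(H y hy.1).1, (H y hy.1).2.2.1 hy.2⟩

theorem w_le {D : Finset (V × V)} (hD : ∀ a b, (a, b) ∈ D → (b, a) ∉ D) {k : ℕ}
    (hk : ∀ y, (univ.filter fun u => (y, u) ∈ D).card ≤ k) {t : ℂ} (ht : 2 * ‖t‖ * k ≤ 1)
    {S : Finset V} {v : V} (hv : v ∈ S) {Ψ : Finset (V × V) → ℝ} (h0 : ∀ T, 0 ≤ Ψ T)
    (hΨ : ∀ (p : V → V) (d : V → ℕ), p v = v → (∀ y ∈ S, y ≠ v →
      p y ∈ S ∧ d (p y) < d y ∧ ((y, p y) ∈ D ∨ (p y, y) ∈ D)) →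
      (12 * ‖t‖) ^ (S.card - 1) ≤ Ψ ((S.erase v).image fun y => (y, p y))) :
    ‖w D t v S‖ * 2 ^ (S.card - 1) ≤
      ∑ T, if insert v (T.image Prod.fst) = S then 3 * Ψ T else 0 := by
  obtain ⟨o, ho⟩ : ∃ o : V × V → V × V, ∀ e, o e = if e ∈ D then e else e.swap := ⟨_, fun _ => rfl⟩
  obtain ⟨G, hG⟩ : ∃ G : Finset (V × V) → Prop, ∀ T, G T ↔ insert v (T.image Prod.fst) = S ∧
    (T.image o).card = S.card - 1 ∧ (12 * ‖t‖) ^ (S.card - 1) ≤ Ψ T := ⟨_, fun _ => Iff.rfl⟩
  have h1 : ‖w D t v S‖ ≤ ∑ U ∈ (Ed D S).powerset, ∑ T,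
      if G T then (if T.image o ⊆ U then (2 * ‖t‖) ^ U.card else 0) else 0 := by
    refine (norm_sum_le _ _).trans (sum_le_sum fun U hU => ?_)
    rw [mem_powerset] at hU
    have n : ∀ T ∈ (univ : Finset (Finset (V × V))), 0 ≤
        if G T then (if T.image o ⊆ U then (2 * ‖t‖) ^ U.card else 0) else 0 := fun _ _ => by
      split_ifs <;> positivity
    split_ifs with h
    · obtain ⟨p, d, pv, hp⟩ := span (fun e he => (mem_Ed.1 (hU he)).2) h
      have hD' : ∀ e ∈ U, e ∈ D := fun e he => (mem_Ed.1 (hU he)).1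
      refine le_trans ?_ (single_le_sum n (mem_univ ((S.erase v).image fun y => (y, p y))))
      rw [if_pos, if_pos]
      · exact W_norm D U t
      · intro e he
        obtain ⟨f, hf, rfl⟩ := mem_image.1 he
        obtain ⟨y, hy, rfl⟩ := mem_image.1 hf
        rw [mem_erase] at hy
        rw [ho]
        rcases (hp y hy.2 hy.1).2.2 with c | c
        · rwa [if_pos (hD' _ c)]
        · rwa [if_neg (hD _ _ (hD' _ c))]
      · refine (hG _).2 ⟨?_, ?_, hΨ p d pv fun y a b => ⟨(hp y a b).1, (hp y a b).2.1,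
          (hp y a b).2.2.imp (hD' _) (hD' _)⟩⟩
        · rw [image_image]
          exact (congrArg _ image_id).trans (insert_erase hv)
        · rw [image_image, card_image_of_injOn, card_erase_of_mem hv]
          intro a ha b hb c
          have a1 := (hp a (mem_erase.1 ha).2 (mem_erase.1 ha).1).2.1
          have b1 := (hp b (mem_erase.1 hb).2 (mem_erase.1 hb).1).2.1
          simp only [Function.comp, ho] at c
          split_ifs at c <;> simp only [Prod.swap, Prod.mk.injEq] at c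
          · exact c.1
          · rw [c.2] at a1
            rw [← c.1] at b1
            omega
          · rw [c.1] at a1
            rw [← c.2] at b1
            omega
          · exact c.2
    · rw [norm_zero]
      exact sum_nonneg n
  have h2 : (Ed D S).card ≤ S.card * k := by
    rw [card_eq_sum_card_fiberwise (f := Prod.fst) (t := S) fun e he => (mem_Ed.1 he).2.1]
    refine (sum_le_card_nsmul _ _ k fun y _ => le_trans ?_ (hk y)).trans (by simp)
    refine card_le_card_of_injOn Prod.snd (fun e he => ?_) fun e he f hf c => ?_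
    · have := mem_filter.1 (mem_coe.1 he)
      exact mem_coe.2 (mem_filter.2 ⟨mem_univ _, this.2 ▸ (mem_Ed.1 this.1).1⟩)
    · exact Prod.ext ((mem_filter.1 (mem_coe.1 he)).2.trans (mem_filter.1 (mem_coe.1 hf)).2.symm) c
  have h3 : (1 + 2 * ‖t‖) ^ (Ed D S).card ≤ 3 ^ (S.card - 1 + 1) := by
    rw [Nat.sub_add_cancel (card_pos.2 ⟨v, hv⟩)]
    refine (pow_le_pow_right₀ (le_add_of_nonneg_right (by positivity)) h2).trans ?_
    rw [mul_comm S.card, pow_mul]
    refine pow_le_pow_left₀ (by positivity) ?_ _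
    have := Real.add_one_le_exp (2 * ‖t‖)
    refine (pow_le_pow_left₀ (by positivity) (by linarith : _ ≤ Real.exp (2 * ‖t‖)) _).trans ?_
    rw [← Real.exp_nat_mul]
    exact (Real.exp_le_exp.2 (by linarith)).trans Real.exp_one_lt_three.le
  refine (mul_le_mul_of_nonneg_right h1 (by positivity)).trans ?_
  rw [sum_comm, sum_mul]
  refine sum_le_sum fun T _ => ?_
  by_cases c : G T
  · simp only [c, if_true]
    rw [hG] at c
    rw [if_pos c.1]
    calc _ ≤ (2 * ‖t‖) ^ (S.card - 1) * 3 ^ (S.card - 1 + 1) * 2 ^ (S.card - 1) :=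
          mul_le_mul_of_nonneg_right ((sup_sum (by positivity) _ _).trans
            (by rw [c.2.1]; gcongr)) (by positivity)
      _ = 3 * (2 * ‖t‖ * 3 * 2) ^ (S.card - 1) := by rw [mul_pow _ 2, mul_pow _ 3]; ring
      _ ≤ _ := by
          rw [show 2 * ‖t‖ * 3 * 2 = 12 * ‖t‖ by ring]
          linarith [c.2.2]
  · simp only [c, if_false, sum_const_zero, zero_mul]
    have := h0 T
    split_ifs <;> positivity

theorem sum_le_half2 {D : Finset (V × V)} (hD : ∀ a b, (a, b) ∈ D → (b, a) ∉ D) {k Δ i : ℕ}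
    (hk0 : 1 ≤ k) (hΔ0 : 0 < Δ) (hk : ∀ y, (univ.filter fun u => (y, u) ∈ D).card ≤ k)
    (hΔ : ∀ u, (univ.filter fun y => (y, u) ∈ D).card ≤ Δ) {t : ℂ} {s g Λ ρ : ℝ}
    (hs : s = 12 * ‖t‖ * Δ) (hg : g = tw s i) (hΛ : 432 ^ 2 * (1 + s) * g ^ 3 ≤ Λ)
    (hρ : ρ * k = Δ) (h1 : Λ ^ (i + 4) ≤ ρ) (h2 : Δ * Λ ^ (4 * (i + 1)) ≤ ρ ^ (i + 1)) (v : V) :
    ∑ S : Finset V, (if v ∈ S ∧ S ≠ {v} then ‖w D t v S‖ * 2 ^ (S.card - 1) else 0) ≤ 1 / 2 := by
  have d0 : (0 : ℝ) < Δ := by exact_mod_cast hΔ0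
  have s0 : 0 ≤ s := by rw [hs]; positivity
  have g1 : 1 ≤ g := hg ▸ one_le_tw s0 i
  have L0 : 1 + s ≤ Λ := le_trans (le_trans (by linarith) (le_mul_of_one_le_right (by positivity)
    (one_le_pow₀ g1))) hΛ
  have L1 : 1 ≤ Λ := by linarith
  have r0 : Λ ≤ ρ := (le_self_pow₀ L1 (by omega)).trans h1
  have r1 : 1 ≤ ρ := L1.trans r0
  have ht : 2 * ‖t‖ * k ≤ 1 := by
    refine le_of_mul_le_mul_right (a := ρ) ?_ (by linarith)
    rw [mul_assoc, mul_comm _ ρ, hρ]
    have : 0 ≤ ‖t‖ * Δ := by positivity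
    linarith
  obtain ⟨α, hα⟩ : ∃ α : ℝ, α = 1 / (432 * g) := ⟨_, rfl⟩
  have a0 : 0 ≤ α := by rw [hα]; positivity
  have a1 : α * g = 1 / 432 := by rw [hα]; field_simp
  have a2 : α ≤ 1 / 432 := a1 ▸ le_mul_of_one_le_right a0 g1
  have b0 : 0 ≤ α / Δ := by positivity
  have b1 : α / Δ * Δ = α := by field_simp
  have hx : 12 * ‖t‖ * g ≤ Λ * α * (α / Δ) := by
    rw [← mul_div_assoc, le_div_iff₀ d0]
    calc _ = 432 ^ 2 * s * g ^ 3 * α * α := by rw [hs, hα]; field_simp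
      _ ≤ _ := by
        have : 432 ^ 2 * s * g ^ 3 ≤ Λ := le_trans (by gcongr; linarith) hΛ
        gcongr
  have hc := cs_nonneg D a0 b0 r1
  have hM := sum_M hc (σ := 18 * α) (by positivity) (by linarith)
    (cs_sum hk hΔ b0 r1 b1 hρ) (2 * Fintype.card V) (v, v, none)
  obtain ⟨m, hm⟩ : ∃ m, m = M (cs D α (α / Δ) ρ) (2 * Fintype.card V) (v, v, none) := ⟨_, rfl⟩
  have m0 : ∀ K, 0 ≤ m K := fun K => hm ▸ M_nonneg hc _ _ _
  have m1 : ∀ {n K a}, Tr (cs D α (α / Δ) ρ) n (v, v, none) K a → n ≤ 2 * Fintype.card V →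
      a ≤ m K := fun h hn => hm ▸ ((h.mono hn).le hc).2
  obtain ⟨F, hF⟩ : ∃ F : Finset (St V) → Finset (V × V) → ℝ, ∀ K R, F K R =
    if K ≠ ∅ ∧ (12 * ‖t‖ * g) ^ ((lab K).image Prod.fst).card ≤ m K then
      (12 * ‖t‖) ^ ((lab K).image Prod.fst).card *
        Phi D (12 * ‖t‖) i (insert v ((lab K).image Prod.fst)) R else 0 := ⟨_, fun _ _ => rfl⟩
  have F0 : ∀ T K R, 0 ≤ if lab K ∪ R = T then F K R else 0 := fun T K R => by
    have := Phi_nonneg D (x := 12 * ‖t‖) (by positivity) i (insert v ((lab K).image Prod.fst)) R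
    rw [hF]
    split_ifs <;> positivity
  have P0 : ∀ T, 0 ≤ ∑ K, ∑ R, if lab K ∪ R = T then F K R else 0 := fun T =>
    sum_nonneg fun K _ => sum_nonneg fun R _ => F0 T K R
  have s1 : ∀ S : Finset V, (if v ∈ S ∧ S ≠ {v} then ‖w D t v S‖ * 2 ^ (S.card - 1) else 0) ≤
      ∑ T, if insert v (T.image Prod.fst) = S then
        3 * ∑ K, ∑ R, (if lab K ∪ R = T then F K R else 0) else 0 := by
    intro S
    by_cases hw : (v ∈ S ∧ S ≠ {v}) ∧ w D t v S ≠ 0
    · rw [if_pos hw.1]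
      refine w_le hD hk ht hw.1.1 P0 fun p d pv hp => ?_
      obtain ⟨Y, y1, y2, ⟨K, a, k1, k2, k3, -⟩, h, y3⟩ := skel2 (i := i) hD a0 (by linarith) b0 b1
        d0.le L1 (by positivity) hx h1 h2 hw.1.1 hw.1.2 (cut_of_ne (loopless hD) hw.2) pv hp
      have e1 : (lab K).image Prod.fst = Y := by
        rw [k3, image_image]
        exact image_id
      have hA : insert v Y ⊆ S := insert_subset hw.1.1 (y1.trans (erase_subset _ _))
      have e2 := card_sdiff_add_card_eq_card hA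
      rw [card_insert_of_notMem fun c => notMem_erase _ _ (y1 c)] at e2
      refine le_trans ?_ (single_le_sum (fun K _ => sum_nonneg fun R _ => F0 _ K R) (mem_univ K))
      refine le_trans ?_ (single_le_sum (fun R _ => F0 _ K R)
        (mem_univ ((S \ insert v Y).image fun y => (y, p y))))
      have e3 : K ≠ ∅ := by
        rintro rfl
        exact y2 (by rw [← e1]; simp [lab])
      rw [if_pos, hF, e1, if_pos ⟨e3, k2.trans (m1 k1 (Nat.mul_le_mul_left 2 (card_le_univ Y)))⟩,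
        show S.card - 1 = Y.card + (S \ insert v Y).card by omega, pow_add]
      · refine mul_le_mul_of_nonneg_left (le_Phi D (by positivity) p i _ _ h fun y hy => ?_)
          (by positivity)
        rw [mem_sdiff] at hy
        obtain ⟨c1, c2, c3, c4⟩ := y3 y hy.1 hy.2
        exact ⟨c1, c2, c3, fun c => ⟨mem_sdiff.2 ⟨(hp y hy.1 fun e => hy.2
          (e ▸ mem_insert_self _ _)).1, (c4 c).1⟩, (c4 c).2⟩⟩
      · rw [k3, ← image_union, sdiff_insert, ← erase_sdiff_comm, union_sdiff_of_subset y1]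
    · refine le_trans (le_of_eq ?_) (sum_nonneg fun T _ => ?_)
      · split_ifs with c
        · rw [not_not.1 fun d => hw ⟨c, d⟩, norm_zero, zero_mul]
        · rfl
      · have := P0 T
        split_ifs <;> positivity
  have s2 : ∀ K, ∑ R, F K R ≤ g * m K := by
    intro K
    simp only [hF]
    split_ifs with c
    · have a2 := Phi_sum hΔ (x := 12 * ‖t‖) (by positivity) i (insert v ((lab K).image Prod.fst))
      rw [← hs, ← hg] at a2
      rw [← mul_sum]
      calc _ ≤ _ * g ^ (((lab K).image Prod.fst).card + 1) := mul_le_mul_of_nonneg_left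
            (a2.trans (pow_le_pow_right₀ g1 (card_insert_le _ _))) (by positivity)
        _ = g * (12 * ‖t‖ * g) ^ ((lab K).image Prod.fst).card := by rw [mul_pow _ g]; ring
        _ ≤ _ := mul_le_mul_of_nonneg_left c.2 (by positivity)
    · rw [sum_const_zero]
      have := m0 K
      positivity
  refine (sum_le_sum fun S _ => s1 S).trans ?_
  rw [sum_comm]
  simp only [sum_ite_eq, mem_univ, if_true]
  rw [← mul_sum, sum_comm, sum_congr rfl fun K _ => (sum_comm.trans (by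
    simp only [sum_ite_eq, mem_univ, if_true]) : _ = ∑ R, F K R),
    ← add_sum_erase _ _ (mem_univ ∅), sum_eq_zero (by simp [hF]), zero_add]
  have := sum_le_sum (s := univ.erase ∅) fun K _ => s2 K
  rw [← hm, ← add_sum_erase _ _ (mem_univ ∅)] at hM
  have a3 := m1 (.nil 0 _) (Nat.zero_le _)
  rw [← mul_sum] at this
  have a4 := mul_le_mul_of_nonneg_left (show ∑ K ∈ univ.erase ∅, m K ≤ 72 * α by linarith)
    (show 0 ≤ g by linarith)
  linarith

theorem main2 (G : SimpleGraph V) {k Δ i : ℕ} (hk : 1 ≤ k) {c L δ : ℝ} (hc : 0 < c) (L0 : 0 < L)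
    (hδ : 0 < δ) (d1 : 1 < Δ) (hΔ : (k : ℝ) ≤ (Δ : ℝ) ^ ((i : ℝ) / (i + 1) - δ))
    (hs : ∀ s, 0 ≤ s → s ≤ c * L → 432 ^ 2 * (1 + s) * tw s i ^ 3 ≤ (Δ : ℝ) ^ (δ / (i + 4)))
    (h : ∀ S : Finset V, S.Nonempty → ∃ v ∈ S, (S.filter (G.Adj v)).card ≤ k)
    (hG : ∀ v, (univ.filter (G.Adj v)).card ≤ Δ) {P : Polynomial ℂ}
    (hP : ∀ n : ℕ, P.eval (n : ℂ) = (Nat.card (G.Coloring (Fin n)) : ℂ)) {z : ℂ}
    (h0 : P.eval z = 0) : ‖z‖ ≤ 24 / c * Δ / L := by
  by_contra hz
  rw [not_le, div_lt_iff₀ L0, div_mul_eq_mul_div, div_lt_iff₀ hc] at hz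
  obtain ⟨D, h1, h2, h3, h4⟩ := orient G h univ
  have k1 : (1 : ℝ) ≤ k := by exact_mod_cast hk
  have d2 : (1 : ℝ) < Δ := by exact_mod_cast d1
  have d0 : (0 : ℝ) < Δ := by linarith
  obtain ⟨Λ, hΛ⟩ : ∃ Λ, Λ = (Δ : ℝ) ^ (δ / (i + 4)) := ⟨_, rfl⟩
  have l1 : 1 ≤ Λ := hΛ ▸ Real.one_le_rpow d2.le (by positivity)
  have l2 : Λ ^ (i + 4) = (Δ : ℝ) ^ δ := by
    rw [hΛ, ← Real.rpow_natCast, ← Real.rpow_mul d0.le]
    congr 1
    push_cast
    field_simp
  have r1 : (Δ : ℝ) ^ (1 / (i + 1) + δ) ≤ Δ / k := by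
    rw [le_div_iff₀ (by linarith)]
    refine (mul_le_mul_of_nonneg_left hΔ (by positivity)).trans (le_of_eq ?_)
    rw [← Real.rpow_add d0, show 1 / (i + 1) + δ + (i / (i + 1) - δ) = 1 by field_simp; ring,
      Real.rpow_one]
  have r2 : Λ ^ (i + 4) ≤ Δ / k := by
    rw [l2]
    exact (Real.rpow_le_rpow_of_exponent_le d2.le (le_add_of_nonneg_left (by positivity))).trans r1
  have r3 : Δ * Λ ^ (4 * (i + 1)) ≤ (Δ / k) ^ (i + 1) :=
    calc _ ≤ Δ * Λ ^ ((i + 4) * (i + 1)) := by gcongr; omega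
      _ = ((Δ : ℝ) ^ (1 / (i + 1) + δ)) ^ (i + 1) := by
        rw [pow_mul, l2, Real.rpow_add d0, mul_pow, one_div]
        congr 1
        exact_mod_cast (Real.rpow_inv_natCast_pow d0.le (Nat.succ_ne_zero i)).symm
      _ ≤ _ := by gcongr
  rw [← hΛ] at hs
  have z1 : 2 ≤ ‖z‖ := by
    have a0 : 0 ≤ c * L := by positivity
    have a1 := (le_mul_of_one_le_right (by positivity) (one_le_pow₀ (one_le_tw a0 i))).trans
      ((hs _ a0 le_rfl).trans ((le_self_pow₀ l1 (by omega)).trans (r2.trans (div_le_self d0.le k1))))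
    by_contra a2
    have := mul_le_mul_of_nonneg_right (not_le.1 a2).le a0
    linarith
  have z2 : ‖z‖ / 2 ≤ ‖z - 1‖ := by
    have := norm_sub_norm_le z 1
    rw [norm_one] at this
    linarith
  have z3 : z - 1 ≠ 0 := norm_pos_iff.1 (by linarith)
  have t1 : ‖-(z - 1)⁻¹‖ * ‖z‖ ≤ 2 := by
    rw [norm_neg, norm_inv, inv_mul_le_iff₀ (by linarith)]
    linarith
  refine (K_ne (loopless h3) _ (fun v => ?_) univ).1 (K_univ z3 (whitney (fun e he => (h1 e he).1)
    (fun a b => h2 a (mem_univ _) b (mem_univ _)) hP (norm_pos_iff.1 (by linarith)) h0))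
  generalize -(z - 1)⁻¹ = t at t1
  refine sum_le_half2 (Δ := Δ) h3 hk (by omega) h4 (fun u => le_trans (card_le_card fun y hy =>
    mem_filter.2 ⟨mem_univ _, (h1 _ (mem_filter.1 hy).2).1.symm⟩) (hG u)) rfl rfl
    (hs _ (by positivity) ?_) (by field_simp) r2 r3 v
  refine le_of_mul_le_mul_right (a := ‖z‖) ?_ (by linarith)
  have := mul_le_mul_of_nonneg_right t1 d0.le
  linarith

omit [Fintype V] in
theorem numer (j : ℕ) {δ : ℝ} (hδ : 0 < δ) : ∃ c : ℝ, 0 < c ∧ ∃ D₀ : ℝ, ∀ y : ℝ, D₀ ≤ y →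
    1 < y ∧ 0 < Real.log^[j + 1] y ∧ ∀ s, 0 ≤ s → s ≤ c * Real.log^[j + 1] y →
      432 ^ 2 * (1 + s) * tw s (j + 1) ^ 3 ≤ y ^ δ := by
  obtain ⟨c, hc, h⟩ := tower j (δ / 5) (by positivity)
  refine ⟨c, hc, Filter.eventually_atTop.1 ?_⟩
  filter_upwards [Real.tendsto_log_atTop.eventually h, Filter.eventually_gt_atTop 1,
    Real.tendsto_log_atTop.eventually (Filter.eventually_ge_atTop (432 ^ 2 * 5 / δ))]
    with y h1 h2 h3
  refine ⟨h2, h1.1, fun s h4 h5 => ?_⟩
  have a1 := h1.2 s h4 h5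
  have a2 := one_le_tw h4 j
  have a3 := Real.add_one_le_exp (δ / 5 * Real.log y)
  have a4 : tw s (j + 1) ≤ Real.exp (δ / 5 * Real.log y) := Real.exp_le_exp.2 (by linarith)
  have a5 := one_le_tw h4 (j + 1)
  have a6 := le_mul_of_one_le_right (show 0 ≤ 1 + s by linarith) a2
  rw [div_le_iff₀ hδ] at h3
  calc _ ≤ Real.exp (δ / 5 * Real.log y) * Real.exp (δ / 5 * Real.log y) *
        Real.exp (δ / 5 * Real.log y) ^ 3 := by gcongr <;> linarith
    _ = Real.exp (δ / 5 * Real.log y) ^ 5 := by ring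
    _ = _ := by
      rw [← Real.exp_nat_mul, Real.rpow_def_of_pos (by linarith)]
      congr 1
      push_cast
      ring

end Pool.Agent.MP_cb5fda_co.Deg
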